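import Pool.Agent.PP5R.Pc

/-!
# PP5, region count (CUBE): zeros of the quadratic form of ten variables in a box, in a class

`cube` is the final statement.
-/

set_option autoImplicit false

namespace Pool.Agent.PP5R

open Finset

/-- integers of a class in an interval of half length `H * s` -/
theorem one_dim {T H Q : ℝ} {a : ℕ} (hP : Par T H Q a) (A : Finset ℤ) (c s : ℝ) (r : ℤ)
    (hs : Scl Q s) (hA : ∀ x ∈ A, |(x : ℝ) - c| ≤ H * s) (hr : ∀ x ∈ A, (a : ℤ) ∣ x - r) :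
    (A.card : ℝ) ≤ 3 * (H / a * s) := by
  have har : (0 : ℝ) < a := by exact_mod_cast hP.ha
  have hQ0 : 0 < Q := by linarith [hP.hQ]
  have pp := hs.pos hP.hQ
  have hH0 := hP.H0
  have i0 := card_class (A := A) (c := c - H * s) (L := 2 * (H * s)) (a := a) (d := 1) (r := r)
    hP.ha one_pos (by positivity) (by
      intro x hx
      have := abs_le.mp (hA x hx)
      exact ⟨by linarith [this.1], by linarith [this.2]⟩) hr (fun x _ => by simp)
  have e : 1 ≤ H / a * s := by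
    rw [div_mul_eq_mul_div, le_div_iff₀ har, one_mul]
    have h4 := hP.powle 4 (by norm_num)
    have h5 : Q ^ 3 ≤ H := by
      have : Q ^ 3 * Q ≤ H * Q := by
        calc Q ^ 3 * Q = Q ^ 4 := by ring
          _ ≤ T := h4
          _ ≤ H * Q := hP.hH
      exact le_of_mul_le_mul_right this hQ0
    have h6 : (a : ℝ) * Q ≤ H * s * Q := by
      calc (a : ℝ) * Q ≤ Q * Q := by
            gcongr
            exact hP.haQ
        _ ≤ Q ^ 3 := by
            have := hP.hQ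
            nlinarith
        _ ≤ H := h5
        _ = H * 1 := by ring
        _ ≤ H * (Q * s) := by gcongr; exact hs.lo
        _ = H * s * Q := by ring
    exact le_of_mul_le_mul_right h6 hQ0
  have e2 : 2 * (H * s) * ((Nat.gcd a 1 : ℕ) : ℝ) / ((a : ℝ) * ((1 : ℕ) : ℝ)) = 2 * (H / a * s) := by
    rw [Nat.gcd_one_right]; push_cast; field_simp
  rw [e2] at i0
  linarith

/-- one chart: five pairs of coordinate functions -/
theorem chart {T H Q : ℝ} {a : ℕ} (hP : Par T H Q a) {α : Type*} (A : Finset α)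
    (U V : Fin 5 → α → ℤ)
    (hinj : ∀ x ∈ A, ∀ y ∈ A, (∀ i, U i x = U i y) → (∀ i, V i x = V i y) → x = y)
    (hF : ∀ x ∈ A, U 0 x * V 0 x + U 1 x * V 1 x + U 2 x * V 2 x + U 3 x * V 3 x +
      U 4 x * V 4 x = 0)
    (ρ σ : Fin 5 → ℝ) (hρ : ∀ i, Scl Q (ρ i)) (hσ : ∀ i, Scl Q (σ i)) (hρσ : ∀ i, ρ i * σ i = 1)
    (cU cV : Fin 5 → ℝ) (hU : ∀ x ∈ A, ∀ i, |(U i x : ℝ) - cU i| ≤ H * σ i)
    (hV : ∀ x ∈ A, ∀ i, |(V i x : ℝ) - cV i| ≤ H * ρ i)
    (rU rV : Fin 5 → ℤ) (hrU : ∀ x ∈ A, ∀ i, (a : ℤ) ∣ U i x - rU i)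
    (hrV : ∀ x ∈ A, ∀ i, (a : ℤ) ∣ V i x - rV i)
    (hbig : ∀ x ∈ A, T * σ 0 ≤ |(U 0 x : ℝ)|)
    (hM : ∀ x ∈ A, ∀ i, |(U i x : ℝ)| ≤ T * Q) {g : ℕ} (hg0 : 0 < g)
    (hg : ∀ d : ℕ, d ∣ a → (d : ℤ) ∣ rU 0 → (d : ℤ) ∣ rU 1 → (d : ℤ) ∣ rU 2 → d ∣ g) :
    (A.card : ℝ) ≤ 10 ^ 6 * (∑ c ∈ g.divisors, (c : ℝ)) * ((H / a) ^ 9 / T) := by
  classical
  have har : (0 : ℝ) < a := by exact_mod_cast hP.ha
  have hQ0 : 0 < Q := by linarith [hP.hQ]
  have hT0 : 0 < T := by linarith [hP.T1]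
  have hH0 := hP.H0
  have pρ : ∀ i, 0 < ρ i := fun i => (hρ i).pos hP.hQ
  have pσ : ∀ i, 0 < σ i := fun i => (hσ i).pos hP.hQ
  have hdiv : ∀ i, H * σ i = H / ρ i := by
    intro i
    have := hρσ i
    have := pρ i
    field_simp
    linarith
  obtain ⟨f, hf⟩ : ∃ f : α → ℤ × ℤ × ℤ × ℤ, f = fun x => (U 3 x, U 4 x, V 3 x, V 4 x) := ⟨_, rfl⟩
  obtain ⟨B, hB⟩ : ∃ B : Finset (ℤ × ℤ × ℤ × ℤ), B = A.image f := ⟨_, rfl⟩
  -- the four other coordinates
  have hBc : (B.card : ℝ) ≤ 81 * (H / a) ^ 4 := by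
    have hsub : B ⊆ (A.image (U 3)) ×ˢ (A.image (U 4)) ×ˢ (A.image (V 3)) ×ˢ (A.image (V 4)) := by
      intro y hy
      rw [hB, mem_image] at hy
      obtain ⟨x, hx, rfl⟩ := hy
      rw [hf]
      simp only [mem_product, mem_image]
      exact ⟨⟨x, hx, rfl⟩, ⟨x, hx, rfl⟩, ⟨x, hx, rfl⟩, ⟨x, hx, rfl⟩⟩
    have h3 := card_le_card hsub
    rw [card_product, card_product, card_product] at h3
    have iU : ∀ i, ((A.image (U i)).card : ℝ) ≤ 3 * (H / a * σ i) := by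
      intro i
      refine one_dim hP _ (cU i) (σ i) (rU i) (hσ i) ?_ ?_
      · intro x hx; rw [mem_image] at hx; obtain ⟨w, hw, rfl⟩ := hx; exact hU w hw i
      · intro x hx; rw [mem_image] at hx; obtain ⟨w, hw, rfl⟩ := hx; exact hrU w hw i
    have iV : ∀ i, ((A.image (V i)).card : ℝ) ≤ 3 * (H / a * ρ i) := by
      intro i
      refine one_dim hP _ (cV i) (ρ i) (rV i) (hρ i) ?_ ?_
      · intro x hx; rw [mem_image] at hx; obtain ⟨w, hw, rfl⟩ := hx; exact hV w hw i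
      · intro x hx; rw [mem_image] at hx; obtain ⟨w, hw, rfl⟩ := hx; exact hrV w hw i
    have p3 := pρ 3
    have p4 := pρ 4
    have s3 := pσ 3
    have s4 := pσ 4
    calc (B.card : ℝ) ≤ ((A.image (U 3)).card : ℝ) * (((A.image (U 4)).card : ℝ) *
            (((A.image (V 3)).card : ℝ) * ((A.image (V 4)).card : ℝ))) := by exact_mod_cast h3
      _ ≤ (3 * (H / a * σ 3)) * ((3 * (H / a * σ 4)) * ((3 * (H / a * ρ 3)) *
            (3 * (H / a * ρ 4)))) := by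
          have i1 := iU 3
          have i2 := iU 4
          have i3 := iV 3
          have i4 := iV 4
          gcongr
      _ = 81 * (H / a) ^ 4 * (ρ 3 * σ 3) * (ρ 4 * σ 4) := by ring
      _ = 81 * (H / a) ^ 4 := by rw [hρσ 3, hρσ 4]; ring
  have hmaps : ∀ x ∈ A, f x ∈ B := by
    intro x hx
    rw [hB, mem_image]
    exact ⟨x, hx, rfl⟩
  have hcard : (A.card : ℝ) = ∑ y ∈ B, ((A.filter (fun x => f x = y)).card : ℝ) := by
    exact_mod_cast Finset.card_eq_sum_card_fiberwise (f := f) hmaps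
  obtain ⟨K, hK⟩ : ∃ K : ℝ, K = 10 ^ 4 * (∑ c ∈ g.divisors, (c : ℝ)) * ((H / a) ^ 5 / T) := ⟨_, rfl⟩
  have hK0 : 0 ≤ K := by rw [hK]; positivity
  have hfib : ∀ y ∈ B, ((A.filter (fun x => f x = y)).card : ℝ) ≤ K := by
    intro y hy
    obtain ⟨h, hh⟩ : ∃ h : α → (ℤ × ℤ × ℤ) × (ℤ × ℤ × ℤ), h = fun x =>
      ((U 0 x, U 1 x, U 2 x), (V 0 x, V 1 x, V 2 x)) := ⟨_, rfl⟩
    have hinj2 : Set.InjOn h (A.filter (fun x => f x = y) : Finset α) := by
      intro x hx x' hx' hxx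
      have hx2 := mem_filter.mp (show x ∈ A.filter (fun x => f x = y) from hx)
      have hx2' := mem_filter.mp (show x' ∈ A.filter (fun x => f x = y) from hx')
      have e1 : f x = f x' := hx2.2.trans hx2'.2.symm
      rw [hf] at e1
      rw [hh] at hxx
      simp only [Prod.mk.injEq] at e1 hxx
      obtain ⟨a1, a2, a3, a4⟩ := e1
      obtain ⟨⟨b1, b2, b3⟩, b4, b5, b6⟩ := hxx
      refine hinj x hx2.1 x' hx2'.1 ?_ ?_
      · intro i
        fin_cases i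
        · exact b1
        · exact b2
        · exact b3
        · exact a1
        · exact a2
      · intro i
        fin_cases i
        · exact b4
        · exact b5
        · exact b6
        · exact a3
        · exact a4
    rw [← card_image_of_injOn hinj2, hK]
    have hmem : ∀ p ∈ (A.filter (fun x => f x = y)).image h, ∃ x ∈ A, f x = y ∧ h x = p := by
      intro p hp
      rw [mem_image] at hp
      obtain ⟨x, hx, rfl⟩ := hp
      rw [mem_filter] at hx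
      exact ⟨x, hx.1, hx.2, rfl⟩
    refine pair_count hP (hρ 0) (hρ 1) (hρ 2) (c0 := cU 0) (c1 := cU 1) (c2 := cU 2)
      (d1 := cV 1) (d2 := cV 2) (N := -(y.1 * y.2.2.1 + y.2.1 * y.2.2.2)) (r0 := rU 0)
      (r1 := rU 1) (r2 := rU 2) (s0 := rV 0) (s1 := rV 1) (s2 := rV 2) _
      ?_ ?_ ?_ ?_ ?_ ?_ ?_ ?_ ?_ ?_ ?_ ?_ ?_ ?_ hg0 hg
    · intro p hp
      obtain ⟨x, hx, hfx, rfl⟩ := hmem p hp
      have e1 := hF x hx
      rw [hf] at hfx
      rw [hh, ← hfx]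
      simp only
      linarith
    · intro p hp
      obtain ⟨x, hx, hfx, rfl⟩ := hmem p hp
      rw [hh, ← hdiv]
      exact hU x hx 0
    · intro p hp
      obtain ⟨x, hx, hfx, rfl⟩ := hmem p hp
      rw [hh, ← hdiv]
      exact hU x hx 1
    · intro p hp
      obtain ⟨x, hx, hfx, rfl⟩ := hmem p hp
      rw [hh, ← hdiv]
      exact hU x hx 2
    · intro p hp
      obtain ⟨x, hx, hfx, rfl⟩ := hmem p hp
      rw [hh]
      exact hV x hx 1
    · intro p hp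
      obtain ⟨x, hx, hfx, rfl⟩ := hmem p hp
      rw [hh]
      exact hV x hx 2
    · intro p hp
      obtain ⟨x, hx, hfx, rfl⟩ := hmem p hp
      have e1 := hbig x hx
      have e2 : T * σ 0 = T / ρ 0 := by
        have := hρσ 0
        have := pρ 0
        field_simp
        linarith
      rw [hh, ← e2]
      exact e1
    · intro p hp
      obtain ⟨x, hx, hfx, rfl⟩ := hmem p hp
      rw [hh]
      exact ⟨hM x hx 0, hM x hx 1, hM x hx 2⟩
    · intro p hp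
      obtain ⟨x, hx, hfx, rfl⟩ := hmem p hp
      rw [hh]
      exact hrU x hx 0
    · intro p hp
      obtain ⟨x, hx, hfx, rfl⟩ := hmem p hp
      rw [hh]
      exact hrU x hx 1
    · intro p hp
      obtain ⟨x, hx, hfx, rfl⟩ := hmem p hp
      rw [hh]
      exact hrU x hx 2
    · intro p hp
      obtain ⟨x, hx, hfx, rfl⟩ := hmem p hp
      rw [hh]
      exact hrV x hx 0
    · intro p hp
      obtain ⟨x, hx, hfx, rfl⟩ := hmem p hp
      rw [hh]
      exact hrV x hx 1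
    · intro p hp
      obtain ⟨x, hx, hfx, rfl⟩ := hmem p hp
      rw [hh]
      exact hrV x hx 2
  rw [hcard]
  calc ∑ y ∈ B, ((A.filter (fun x => f x = y)).card : ℝ) ≤ ∑ y ∈ B, K := sum_le_sum hfib
    _ = B.card * K := by rw [sum_const, nsmul_eq_mul]
    _ ≤ (81 * (H / a) ^ 4) * K := by gcongr
    _ = 810000 * ((∑ c ∈ g.divisors, (c : ℝ)) * ((H / a) ^ 9 / T)) := by rw [hK]; ring
    _ ≤ 10 ^ 6 * ((∑ c ∈ g.divisors, (c : ℝ)) * ((H / a) ^ 9 / T)) := by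
        have : 0 ≤ (∑ c ∈ g.divisors, (c : ℝ)) * ((H / a) ^ 9 / T) := by positivity
        nlinarith
    _ = _ := by ring

/-- the ten variable quadratic form (LDefs.FF, PP5D.F10) -/
def Fq (x : Fin 10 → ℤ) : ℤ := x 0 * x 2 - x 9 * x 6 - x 1 * x 3 - x 4 * x 5 + x 7 * x 8

/-- the partner of a coordinate in `Fq` -/
def prt : Fin 10 → Fin 10 := ![2, 3, 0, 1, 5, 4, 9, 8, 7, 6]

/-- two other coordinates, in two other pairs -/
def tr1 : Fin 10 → Fin 10 := ![1, 0, 3, 2, 0, 0, 0, 0, 0, 0]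

/-- two other coordinates, in two other pairs -/
def tr2 : Fin 10 → Fin 10 := ![4, 4, 4, 4, 1, 1, 1, 1, 1, 1]

/-- chart with the sign data: `U i = x (u i)`, `V i = e i * x (v i)` -/
theorem chart_u {T H Q : ℝ} {a : ℕ} (hP : Par T H Q a) {τ c : Fin 10 → ℝ} {r : Fin 10 → ℤ}
    (hτ : ∀ j, Scl Q (τ j)) (hττ : ∀ j, τ j * τ (prt j) = 1) (A : Finset (Fin 10 → ℤ))
    (hc : ∀ x ∈ A, ∀ j, |(x j : ℝ) - c j| ≤ H * τ j) (hr : ∀ x ∈ A, ∀ j, (a : ℤ) ∣ x j - r j)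
    (u : Fin 5 → Fin 10) (e : Fin 5 → ℤ) (he : ∀ i, e i = 1 ∨ e i = -1)
    (hcov : ∀ j, ∃ i, j = u i ∨ j = prt (u i))
    (hF : ∀ x ∈ A, x (u 0) * (e 0 * x (prt (u 0))) + x (u 1) * (e 1 * x (prt (u 1))) +
      x (u 2) * (e 2 * x (prt (u 2))) + x (u 3) * (e 3 * x (prt (u 3))) +
      x (u 4) * (e 4 * x (prt (u 4))) = 0)
    (hbig : ∀ x ∈ A, T * τ (u 0) ≤ |(x (u 0) : ℝ)|) (hM : ∀ x ∈ A, ∀ j, |(x j : ℝ)| ≤ T * Q)
    {g : ℕ} (hg0 : 0 < g)
    (hg : ∀ d : ℕ, d ∣ a → (d : ℤ) ∣ r (u 0) → (d : ℤ) ∣ r (u 1) → (d : ℤ) ∣ r (u 2) → d ∣ g) :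
    (A.card : ℝ) ≤ 10 ^ 6 * (∑ c ∈ g.divisors, (c : ℝ)) * ((H / a) ^ 9 / T) := by
  refine chart hP A (fun i x => x (u i)) (fun i x => e i * x (prt (u i))) ?_ hF
    (fun i => τ (prt (u i))) (fun i => τ (u i)) (fun i => hτ _) (fun i => hτ _)
    (fun i => by rw [mul_comm]; exact hττ (u i)) (fun i => c (u i))
    (fun i => e i * c (prt (u i))) (fun x hx i => hc x hx (u i)) ?_ (fun i => r (u i))
    (fun i => e i * r (prt (u i))) (fun x hx i => hr x hx (u i)) ?_ hbig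
    (fun x hx i => hM x hx (u i)) hg0 hg
  · intro x _ y _ h1 h2
    funext j
    obtain ⟨i, hi | hi⟩ := hcov j
    · rw [hi]; exact h1 i
    · rw [hi]
      have h3 := h2 i
      rcases he i with h | h
      · rw [h] at h3; linarith
      · rw [h] at h3; linarith
  · intro x hx i
    have h1 := hc x hx (prt (u i))
    rcases he i with h | h
    · rw [h]; push_cast; simpa using h1
    · rw [h]
      push_cast
      have e1 : -1 * (x (prt (u i)) : ℝ) - -1 * c (prt (u i)) =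
          -((x (prt (u i)) : ℝ) - c (prt (u i))) := by ring
      rw [e1, abs_neg]
      exact h1
  · intro x hx i
    have h1 := hr x hx (prt (u i))
    have e1 : e i * x (prt (u i)) - e i * r (prt (u i)) = e i * (x (prt (u i)) - r (prt (u i))) := by
      ring
    rw [e1]
    exact Dvd.dvd.mul_left h1 _

theorem cube_aux {T H Q : ℝ} {a : ℕ} (hP : Par T H Q a) {τ c : Fin 10 → ℝ} {r : Fin 10 → ℤ}
    (hτ : ∀ j, Scl Q (τ j)) (hττ : ∀ j, τ j * τ (prt j) = 1) (A : Finset (Fin 10 → ℤ))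
    (hF : ∀ x ∈ A, Fq x = 0) (hc : ∀ x ∈ A, ∀ j, |(x j : ℝ) - c j| ≤ H * τ j)
    (hr : ∀ x ∈ A, ∀ j, (a : ℤ) ∣ x j - r j) (j0 : Fin 10)
    (hbig : ∀ x ∈ A, T * τ j0 ≤ |(x j0 : ℝ)|) (hM : ∀ x ∈ A, ∀ j, |(x j : ℝ)| ≤ T * Q)
    {g : ℕ} (hg0 : 0 < g)
    (hg : ∀ d : ℕ, d ∣ a → (d : ℤ) ∣ r j0 → (d : ℤ) ∣ r (tr1 j0) → (d : ℤ) ∣ r (tr2 j0) → d ∣ g) :
    (A.card : ℝ) ≤ 10 ^ 6 * (∑ c ∈ g.divisors, (c : ℝ)) * ((H / a) ^ 9 / T) := by
  have main : ∀ (u : Fin 5 → Fin 10) (e : Fin 5 → ℤ), j0 = u 0 → tr1 j0 = u 1 → tr2 j0 = u 2 →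
      (∀ i, e i = 1 ∨ e i = -1) → (∀ j, ∃ i, j = u i ∨ j = prt (u i)) →
      (∀ x : Fin 10 → ℤ, Fq x = x (u 0) * (e 0 * x (prt (u 0))) + x (u 1) * (e 1 * x (prt (u 1))) +
      x (u 2) * (e 2 * x (prt (u 2))) + x (u 3) * (e 3 * x (prt (u 3))) +
      x (u 4) * (e 4 * x (prt (u 4)))) →
      (A.card : ℝ) ≤ 10 ^ 6 * (∑ c ∈ g.divisors, (c : ℝ)) * ((H / a) ^ 9 / T) := by
    intro u e h0 h1 h2 he hcov hFq
    refine chart_u hP hτ hττ A hc hr u e he hcov ?_ ?_ hM hg0 ?_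
    · intro x hx
      rw [← hFq x]
      exact hF x hx
    · intro x hx
      rw [← h0]
      exact hbig x hx
    · intro d hd g0 g1 g2
      rw [← h0] at g0
      rw [← h1] at g1
      rw [← h2] at g2
      exact hg d hd g0 g1 g2
  fin_cases j0
  · exact main ![0, 1, 4, 6, 7] ![1, -1, -1, -1, 1] rfl rfl rfl (by decide) (by decide)
      (by intro x; simp [Fq, prt]; ring)
  · exact main ![1, 0, 4, 6, 7] ![-1, 1, -1, -1, 1] rfl rfl rfl (by decide) (by decide)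
      (by intro x; simp [Fq, prt]; ring)
  · exact main ![2, 3, 4, 6, 7] ![1, -1, -1, -1, 1] rfl rfl rfl (by decide) (by decide)
      (by intro x; simp [Fq, prt]; ring)
  · exact main ![3, 2, 4, 6, 7] ![-1, 1, -1, -1, 1] rfl rfl rfl (by decide) (by decide)
      (by intro x; simp [Fq, prt]; ring)
  · exact main ![4, 0, 1, 6, 7] ![-1, 1, -1, -1, 1] rfl rfl rfl (by decide) (by decide)
      (by intro x; simp [Fq, prt]; ring)
  · exact main ![5, 0, 1, 6, 7] ![-1, 1, -1, -1, 1] rfl rfl rfl (by decide) (by decide)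
      (by intro x; simp [Fq, prt]; ring)
  · exact main ![6, 0, 1, 4, 7] ![-1, 1, -1, -1, 1] rfl rfl rfl (by decide) (by decide)
      (by intro x; simp [Fq, prt]; ring)
  · exact main ![7, 0, 1, 4, 6] ![1, 1, -1, -1, -1] rfl rfl rfl (by decide) (by decide)
      (by intro x; simp [Fq, prt]; ring)
  · exact main ![8, 0, 1, 4, 6] ![1, 1, -1, -1, -1] rfl rfl rfl (by decide) (by decide)
      (by intro x; simp [Fq, prt]; ring)
  · exact main ![9, 0, 1, 4, 7] ![-1, 1, -1, -1, 1] rfl rfl rfl (by decide) (by decide)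
      (by intro x; simp [Fq, prt]; ring)

end Pool.Agent.PP5R
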