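import Pool.Agent.PP5R.Gcs

/-!
# PP5, region count: the fibre over a normal vector `w`, and the exceptional normal vectors
-/

set_option autoImplicit false

namespace Pool.Agent.PP5R

open Finset

/-- the fibre over `w` -/
theorem fibre {w : ℤ × ℤ × ℤ} (hw : w.1 ≠ 0) {N : ℤ} {a : ℕ} (ha : 0 < a) {c1 c2 B1 B2 lam : ℝ}
    {r0 r1 r2 : ℤ} (hB1 : 0 < B1) (hB2 : 0 < B2) (hl : 0 < lam) (hl1 : lam ≤ 1)
    (V : Finset (ℤ × ℤ × ℤ))
    (hN : ∀ v ∈ V, w.1 * v.1 + w.2.1 * v.2.1 + w.2.2 * v.2.2 = N)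
    (h1 : ∀ v ∈ V, |(v.2.1 : ℝ) - c1| ≤ B1) (h2 : ∀ v ∈ V, |(v.2.2 : ℝ) - c2| ≤ B2)
    (hr0 : ∀ v ∈ V, (a : ℤ) ∣ v.1 - r0) (hr1 : ∀ v ∈ V, (a : ℤ) ∣ v.2.1 - r1)
    (hr2 : ∀ v ∈ V, (a : ℤ) ∣ v.2.2 - r2)
    (hmin : ∀ y : ℤ × ℤ, y ≠ 0 → w.1 ∣ w.2.1 * y.1 + w.2.2 * y.2 →
      lam * (2 * B1 / a) ≤ |(y.1 : ℝ)| ∨ lam * (2 * B2 / a) ≤ |(y.2 : ℝ)|) :
    (V.card : ℝ) ≤ 3 / lam +
      12 * ((2 * B1 / a) * (2 * B2 / a) * (gg w : ℝ) / |(w.1 : ℝ)|) := by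
  classical
  have har : (0 : ℝ) < a := by exact_mod_cast ha
  have haz : (a : ℤ) ≠ 0 := by exact_mod_cast ha.ne'
  rcases V.eq_empty_or_nonempty with hV | ⟨p, hp⟩
  · rw [hV]
    simp only [card_empty, CharP.cast_eq_zero]
    have : (0 : ℝ) ≤ 12 * ((2 * B1 / a) * (2 * B2 / a) * (gg w : ℝ) / |(w.1 : ℝ)|) := by positivity
    have : (0 : ℝ) ≤ 3 / lam := by positivity
    linarith
  obtain ⟨f, hf⟩ : ∃ f : (ℤ × ℤ × ℤ) → ℤ × ℤ, f = fun v =>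
    ((v.2.1 - p.2.1) / (a : ℤ), (v.2.2 - p.2.2) / (a : ℤ)) := ⟨_, rfl⟩
  have hd : ∀ v ∈ V, ∃ y0 y1 y2 : ℤ, v.1 = p.1 + a * y0 ∧ v.2.1 = p.2.1 + a * y1 ∧
      v.2.2 = p.2.2 + a * y2 ∧ f v = (y1, y2) := by
    intro v hv
    have e0 : (a : ℤ) ∣ v.1 - p.1 := by
      have := dvd_sub (hr0 v hv) (hr0 p hp)
      have e : v.1 - r0 - (p.1 - r0) = v.1 - p.1 := by ring
      rwa [e] at this
    have e1 : (a : ℤ) ∣ v.2.1 - p.2.1 := by
      have := dvd_sub (hr1 v hv) (hr1 p hp)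
      have e : v.2.1 - r1 - (p.2.1 - r1) = v.2.1 - p.2.1 := by ring
      rwa [e] at this
    have e2 : (a : ℤ) ∣ v.2.2 - p.2.2 := by
      have := dvd_sub (hr2 v hv) (hr2 p hp)
      have e : v.2.2 - r2 - (p.2.2 - r2) = v.2.2 - p.2.2 := by ring
      rwa [e] at this
    obtain ⟨y0, hy0⟩ := e0
    obtain ⟨y1, hy1⟩ := e1
    obtain ⟨y2, hy2⟩ := e2
    refine ⟨y0, y1, y2, by linarith, by linarith, by linarith, ?_⟩
    rw [hf]
    simp only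
    rw [hy1, hy2, Int.mul_ediv_cancel_left _ haz, Int.mul_ediv_cancel_left _ haz]
  have hinj : Set.InjOn f V := by
    intro v hv v' hv' hvv
    obtain ⟨y0, y1, y2, a0, a1, a2, a3⟩ := hd v hv
    obtain ⟨z0, z1, z2, b0, b1, b2, b3⟩ := hd v' hv'
    rw [a3, b3, Prod.mk.injEq] at hvv
    obtain ⟨q1, q2⟩ := hvv
    subst q1
    subst q2
    have n1 := hN v hv
    have n2 := hN v' hv'
    have e1 : v.2.1 = v'.2.1 := by rw [a1, b1]
    have e2 : v.2.2 = v'.2.2 := by rw [a2, b2]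
    have e3 : w.1 * v.1 = w.1 * v'.1 := by rw [e1, e2] at n1; linarith
    have e0 : v.1 = v'.1 := mul_left_cancel₀ hw e3
    exact Prod.ext e0 (Prod.ext e1 e2)
  rw [← card_image_of_injOn hinj]
  have hD1 : (0 : ℝ) < 2 * B1 / a := by positivity
  have hD2 : (0 : ℝ) < 2 * B2 / a := by positivity
  refine plane hw hD1 hD2 hl hl1 (V.image f) ?_ hmin
  intro y hy
  rw [mem_image] at hy
  obtain ⟨v, hv, rfl⟩ := hy
  obtain ⟨y0, y1, y2, a0, a1, a2, a3⟩ := hd v hv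
  rw [a3]
  simp only
  refine ⟨?_, ?_, ?_⟩
  · have n1 := hN v hv
    have n2 := hN p hp
    have n3 : (a : ℤ) * (w.1 * y0 + w.2.1 * y1 + w.2.2 * y2) = 0 := by
      rw [a0, a1, a2] at n1
      linear_combination n1 - n2
    have n4 : w.1 * y0 + w.2.1 * y1 + w.2.2 * y2 = 0 := by
      rcases mul_eq_zero.mp n3 with h | h
      · exact absurd h haz
      · exact h
    exact ⟨-y0, by linear_combination n4⟩
  · have q1 := h1 v hv
    have q2 := h1 p hp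
    have q3 : (v.2.1 : ℝ) = p.2.1 + a * y1 := by exact_mod_cast a1
    rw [le_div_iff₀ har, ← abs_of_pos har, ← abs_mul]
    have q4 : (y1 : ℝ) * a = (v.2.1 - c1) - (p.2.1 - c1) := by rw [q3]; ring
    rw [q4]
    calc |(v.2.1 : ℝ) - c1 - (p.2.1 - c1)| ≤ |(v.2.1 : ℝ) - c1| + |(p.2.1 : ℝ) - c1| := abs_sub _ _
      _ ≤ 2 * B1 := by linarith
  · have q1 := h2 v hv
    have q2 := h2 p hp
    have q3 : (v.2.2 : ℝ) = p.2.2 + a * y2 := by exact_mod_cast a2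
    rw [le_div_iff₀ har, ← abs_of_pos har, ← abs_mul]
    have q4 : (y2 : ℝ) * a = (v.2.2 - c2) - (p.2.2 - c2) := by rw [q3]; ring
    rw [q4]
    calc |(v.2.2 : ℝ) - c2 - (p.2.2 - c2)| ≤ |(v.2.2 : ℝ) - c2| + |(p.2.2 : ℝ) - c2| := abs_sub _ _
      _ ≤ 2 * B2 := by linarith

/-- integers of absolute value at most `M` -/
theorem card_abs_le {A : Finset ℤ} {M : ℝ} (hM : 0 ≤ M) (hA : ∀ x ∈ A, |(x : ℝ)| ≤ M) :
    (A.card : ℝ) ≤ 2 * M + 1 := by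
  have h := card_sep A (fun x => (x : ℝ)) (c := -M) (L := 2 * M) (m := 1) one_pos (by linarith)
    (by
      intro x hx
      have := abs_le.mp (hA x hx)
      exact ⟨this.1, by linarith [this.2]⟩)
    (by
      intro x hx y hy hxy
      have : (1 : ℤ) ≤ |x - y| := Int.one_le_abs (sub_ne_zero.mpr hxy)
      exact_mod_cast this)
  linarith

/-- vectors `w` in a box orthogonal to a fixed `e` with `(e1, e2) ≠ 0` -/
theorem card_orth {e : ℤ × ℤ × ℤ} (he : e.2 ≠ 0) {M : ℝ} (hM : 1 ≤ M) (W : Finset (ℤ × ℤ × ℤ))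
    (hW : ∀ w ∈ W, |(w.1 : ℝ)| ≤ M ∧ |(w.2.1 : ℝ)| ≤ M ∧ |(w.2.2 : ℝ)| ≤ M)
    (horth : ∀ w ∈ W, w.1 * e.1 + w.2.1 * e.2.1 + w.2.2 * e.2.2 = 0) :
    (W.card : ℝ) ≤ 9 * M ^ 2 := by
  classical
  have hM0 : 0 ≤ M := by linarith
  by_cases h1 : e.2.1 = 0
  · have h2 : e.2.2 ≠ 0 := by
      intro h
      exact he (Prod.ext h1 h)
    have hinj : Set.InjOn (fun w : ℤ × ℤ × ℤ => (w.1, w.2.1)) W := by
      intro w hw w' hw' hww
      simp only [Prod.mk.injEq] at hww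
      obtain ⟨q1, q2⟩ := hww
      have o1 := horth w hw
      have o2 := horth w' hw'
      have e3 : e.2.2 * w.2.2 = e.2.2 * w'.2.2 := by rw [q1, q2] at o1; linarith
      exact Prod.ext q1 (Prod.ext q2 (mul_left_cancel₀ h2 e3))
    rw [← card_image_of_injOn hinj]
    have hsub : W.image (fun w : ℤ × ℤ × ℤ => (w.1, w.2.1)) ⊆
        (W.image (fun w => w.1)) ×ˢ (W.image (fun w => w.2.1)) := by
      intro y hy
      rw [mem_image] at hy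
      obtain ⟨w, hw, rfl⟩ := hy
      simp only [mem_product, mem_image]
      exact ⟨⟨w, hw, rfl⟩, ⟨w, hw, rfl⟩⟩
    have h3 := card_le_card hsub
    rw [card_product] at h3
    have i1 := card_abs_le (A := W.image (fun w => w.1)) hM0 (by
      intro x hx; rw [mem_image] at hx; obtain ⟨w, hw, rfl⟩ := hx; exact (hW w hw).1)
    have i2 := card_abs_le (A := W.image (fun w => w.2.1)) hM0 (by
      intro x hx; rw [mem_image] at hx; obtain ⟨w, hw, rfl⟩ := hx; exact (hW w hw).2.1)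
    calc ((W.image (fun w : ℤ × ℤ × ℤ => (w.1, w.2.1))).card : ℝ)
        ≤ ((W.image (fun w => w.1)).card : ℝ) * ((W.image (fun w => w.2.1)).card : ℝ) := by
          exact_mod_cast h3
      _ ≤ (2 * M + 1) * (2 * M + 1) := by gcongr
      _ ≤ 9 * M ^ 2 := by nlinarith
  · have hinj : Set.InjOn (fun w : ℤ × ℤ × ℤ => (w.1, w.2.2)) W := by
      intro w hw w' hw' hww
      simp only [Prod.mk.injEq] at hww
      obtain ⟨q1, q2⟩ := hww
      have o1 := horth w hw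
      have o2 := horth w' hw'
      have e3 : e.2.1 * w.2.1 = e.2.1 * w'.2.1 := by rw [q1, q2] at o1; linarith
      exact Prod.ext q1 (Prod.ext (mul_left_cancel₀ h1 e3) q2)
    rw [← card_image_of_injOn hinj]
    have hsub : W.image (fun w : ℤ × ℤ × ℤ => (w.1, w.2.2)) ⊆
        (W.image (fun w => w.1)) ×ˢ (W.image (fun w => w.2.2)) := by
      intro y hy
      rw [mem_image] at hy
      obtain ⟨w, hw, rfl⟩ := hy
      simp only [mem_product, mem_image]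
      exact ⟨⟨w, hw, rfl⟩, ⟨w, hw, rfl⟩⟩
    have h3 := card_le_card hsub
    rw [card_product] at h3
    have i1 := card_abs_le (A := W.image (fun w => w.1)) hM0 (by
      intro x hx; rw [mem_image] at hx; obtain ⟨w, hw, rfl⟩ := hx; exact (hW w hw).1)
    have i2 := card_abs_le (A := W.image (fun w => w.2.2)) hM0 (by
      intro x hx; rw [mem_image] at hx; obtain ⟨w, hw, rfl⟩ := hx; exact (hW w hw).2.2)
    calc ((W.image (fun w : ℤ × ℤ × ℤ => (w.1, w.2.2))).card : ℝ)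
        ≤ ((W.image (fun w => w.1)).card : ℝ) * ((W.image (fun w => w.2.2)).card : ℝ) := by
          exact_mod_cast h3
      _ ≤ (2 * M + 1) * (2 * M + 1) := by gcongr
      _ ≤ 9 * M ^ 2 := by nlinarith

/-- the exceptional normal vectors -/
theorem card_exc {M E : ℝ} (hM : 1 ≤ M) (hE : 1 ≤ E) (W : Finset (ℤ × ℤ × ℤ))
    (hW : ∀ w ∈ W, |(w.1 : ℝ)| ≤ M ∧ |(w.2.1 : ℝ)| ≤ M ∧ |(w.2.2 : ℝ)| ≤ M)
    (hexc : ∀ w ∈ W, ∃ e : ℤ × ℤ × ℤ, e.2 ≠ 0 ∧ |(e.1 : ℝ)| ≤ E ∧ |(e.2.1 : ℝ)| ≤ E ∧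
      |(e.2.2 : ℝ)| ≤ E ∧ w.1 * e.1 + w.2.1 * e.2.1 + w.2.2 * e.2.2 = 0) :
    (W.card : ℝ) ≤ 243 * E ^ 3 * M ^ 2 := by
  classical
  have hE0 : 0 ≤ E := by linarith
  obtain ⟨I, hI⟩ : ∃ I : Finset ℤ, I = Icc (-⌊E⌋) ⌊E⌋ := ⟨_, rfl⟩
  have memI : ∀ x : ℤ, x ∈ I ↔ |(x : ℝ)| ≤ E := by
    intro x
    rw [hI, mem_Icc, abs_le, Int.le_floor, neg_le, Int.le_floor]
    push_cast
    constructor
    · rintro ⟨h1, h2⟩; exact ⟨by linarith, h2⟩
    · rintro ⟨h1, h2⟩; exact ⟨by linarith, h2⟩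
  have cardI : (I.card : ℝ) ≤ 3 * E := by
    have := card_abs_le (A := I) hE0 (fun x hx => (memI x).mp hx)
    linarith
  obtain ⟨B, hB⟩ : ∃ B : Finset (ℤ × ℤ × ℤ), B = (I ×ˢ I ×ˢ I).filter (fun e => e.2 ≠ 0) := ⟨_, rfl⟩
  have cardB : (B.card : ℝ) ≤ 27 * E ^ 3 := by
    have h1 : B.card ≤ I.card * (I.card * I.card) := by
      rw [hB, ← card_product, ← card_product]
      exact card_filter_le _ _
    calc (B.card : ℝ) ≤ (I.card : ℝ) * ((I.card : ℝ) * (I.card : ℝ)) := by exact_mod_cast h1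
      _ ≤ (3 * E) * ((3 * E) * (3 * E)) := by gcongr
      _ = 27 * E ^ 3 := by ring
  have hsub : W ⊆ B.biUnion (fun e => W.filter
      (fun w => w.1 * e.1 + w.2.1 * e.2.1 + w.2.2 * e.2.2 = 0)) := by
    intro w hw
    obtain ⟨e, h1, h2, h3, h4, h5⟩ := hexc w hw
    rw [mem_biUnion]
    refine ⟨e, ?_, ?_⟩
    · rw [hB, mem_filter, mem_product, mem_product]
      exact ⟨⟨(memI _).mpr h2, (memI _).mpr h3, (memI _).mpr h4⟩, h1⟩
    · rw [mem_filter]; exact ⟨hw, h5⟩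
  have h1 : (W.card : ℝ) ≤ ∑ e ∈ B, ((W.filter
      (fun w => w.1 * e.1 + w.2.1 * e.2.1 + w.2.2 * e.2.2 = 0)).card : ℝ) := by
    exact_mod_cast (card_le_card hsub).trans card_biUnion_le
  calc (W.card : ℝ) ≤ ∑ e ∈ B, ((W.filter
      (fun w => w.1 * e.1 + w.2.1 * e.2.1 + w.2.2 * e.2.2 = 0)).card : ℝ) := h1
    _ ≤ ∑ e ∈ B, 9 * M ^ 2 := by
        refine sum_le_sum (fun e he => ?_)
        rw [hB, mem_filter] at he
        refine card_orth he.2 hM _ ?_ ?_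
        · intro w hw; exact hW w (mem_filter.mp hw).1
        · intro w hw; exact (mem_filter.mp hw).2
    _ = B.card * (9 * M ^ 2) := by rw [sum_const, nsmul_eq_mul]
    _ ≤ 27 * E ^ 3 * (9 * M ^ 2) := by gcongr
    _ = 243 * E ^ 3 * M ^ 2 := by ring

end Pool.Agent.PP5R
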