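import Pool.Agent.PP5R.Pln

/-!
# PP5, region count: the sum of `gcd (w0, w1, w2)` over a residue class in a box
-/

set_option autoImplicit false

namespace Pool.Agent.PP5R

open Finset

/-- integers in an interval of length `L`, in one class mod `a` and divisible by `d` -/
theorem card_class {A : Finset ℤ} {c L : ℝ} {a d : ℕ} {r : ℤ} (ha : 0 < a) (hd : 0 < d)
    (hL : 0 ≤ L) (hA : ∀ x ∈ A, c ≤ x ∧ (x : ℝ) ≤ c + L) (hr : ∀ x ∈ A, (a : ℤ) ∣ x - r)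
    (hdv : ∀ x ∈ A, (d : ℤ) ∣ x) :
    (A.card : ℝ) ≤ L * (Nat.gcd a d : ℝ) / (a * d) + 1 := by
  have hl0 : 0 < Nat.lcm a d := Nat.lcm_pos ha hd
  have hg0 : 0 < Nat.gcd a d := Nat.gcd_pos_of_pos_left _ ha
  have hsep := card_sep A (fun x => (x : ℝ)) (c := c) (L := L) (m := (Nat.lcm a d : ℝ))
    (by exact_mod_cast hl0) hL hA (by
      intro x hx y hy hxy
      have h1 : (a : ℤ) ∣ x - y := by
        have := dvd_sub (hr x hx) (hr y hy)
        have e : x - r - (y - r) = x - y := by ring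
        rwa [e] at this
      have h2 : (d : ℤ) ∣ x - y := dvd_sub (hdv x hx) (hdv y hy)
      have h3 : ((Nat.lcm a d : ℕ) : ℤ) ∣ x - y := by
        have := Int.coe_lcm_dvd h1 h2
        simpa [Int.lcm] using this
      have h4 : ((Nat.lcm a d : ℕ) : ℤ) ≤ |x - y| :=
        Int.le_of_dvd (abs_pos.mpr (sub_ne_zero.mpr hxy)) ((dvd_abs _ _).mpr h3)
      have h5 : (((Nat.lcm a d : ℕ) : ℤ) : ℝ) ≤ ((|x - y| : ℤ) : ℝ) := by exact_mod_cast h4
      push_cast at h5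
      simpa using h5)
  have e1 : (Nat.gcd a d : ℝ) * (Nat.lcm a d : ℝ) = a * d := by
    exact_mod_cast Nat.gcd_mul_lcm a d
  have hlr : (0 : ℝ) < Nat.lcm a d := by exact_mod_cast hl0
  have hgr : (0 : ℝ) < Nat.gcd a d := by exact_mod_cast hg0
  have e2 : L / (Nat.lcm a d : ℝ) = L * (Nat.gcd a d : ℝ) / (a * d) := by
    rw [← e1]; field_simp
  rw [e2] at hsep
  exact hsep

theorem sum_inv_sq_le_two (Y : ℕ) : ∑ m ∈ Icc 1 Y, (1 : ℝ) / (m : ℝ) ^ 2 ≤ 2 := by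
  rcases Nat.lt_or_ge Y 1 with h | h
  · have : Icc 1 Y = ∅ := Finset.Icc_eq_empty (by omega)
    rw [this]; simp
  · have h1 := sum_Ioc_inv_sq_le_sub (α := ℝ) one_ne_zero h
    have h2 : Icc 1 Y = insert 1 (Ioc 1 Y) := by
      ext x; simp only [mem_Icc, mem_insert, mem_Ioc]; omega
    rw [h2, sum_insert (by simp)]
    have h3 : ∑ m ∈ Ioc 1 Y, (1 : ℝ) / (m : ℝ) ^ 2 = ∑ m ∈ Ioc 1 Y, ((m : ℝ) ^ 2)⁻¹ :=
      sum_congr rfl (fun m _ => by rw [one_div])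
    rw [h3]
    have h4 : (0 : ℝ) ≤ ((Y : ℕ) : ℝ)⁻¹ := by positivity
    push_cast at h1 ⊢
    simp only [inv_one] at h1
    norm_num
    linarith

theorem sum_tail_le {Y N : ℕ} (hY : 0 < Y) : ∑ m ∈ Ioc Y N, (1 : ℝ) / (m : ℝ) ^ 2 ≤ 1 / Y := by
  rcases Nat.lt_or_ge N Y with h | h
  · have : Ioc Y N = ∅ := Finset.Ioc_eq_empty (by omega)
    rw [this]; simp
  · have h1 := sum_Ioc_inv_sq_le_sub (α := ℝ) hY.ne' h
    have h3 : ∑ m ∈ Ioc Y N, (1 : ℝ) / (m : ℝ) ^ 2 = ∑ m ∈ Ioc Y N, ((m : ℝ) ^ 2)⁻¹ :=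
      sum_congr rfl (fun m _ => by rw [one_div])
    rw [h3, one_div]
    have h4 : (0 : ℝ) ≤ ((N : ℕ) : ℝ)⁻¹ := by positivity
    linarith

theorem sum_gcd_le {a g : ℕ} (hg : 0 < g) (Y : ℕ) :
    ∑ d ∈ (Icc 1 Y).filter (fun d => Nat.gcd a d ∣ g), (Nat.gcd a d : ℝ) ^ 3 / (d : ℝ) ^ 2 ≤
      2 * ∑ c ∈ g.divisors, (c : ℝ) := by
  classical
  have h1 : ∀ d ∈ (Icc 1 Y).filter (fun d => Nat.gcd a d ∣ g),
      (Nat.gcd a d : ℝ) ^ 3 / (d : ℝ) ^ 2 ≤
        ∑ c ∈ g.divisors, (if c ∣ d then (c : ℝ) ^ 3 / (d : ℝ) ^ 2 else 0) := by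
    intro d hd
    rw [mem_filter, mem_Icc] at hd
    have h2 : Nat.gcd a d ∈ g.divisors := Nat.mem_divisors.mpr ⟨hd.2, hg.ne'⟩
    have h3 := single_le_sum (f := fun c : ℕ => (if c ∣ d then (c : ℝ) ^ 3 / (d : ℝ) ^ 2 else 0))
      (fun c _ => by split_ifs <;> positivity) h2
    simp only [Nat.gcd_dvd_right, if_true] at h3
    exact h3
  refine (sum_le_sum h1).trans ?_
  rw [sum_comm, mul_sum]
  refine sum_le_sum (fun c hc => ?_)
  have hc0 : 0 < c := Nat.pos_of_mem_divisors hc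
  have hcr : (0 : ℝ) < c := by exact_mod_cast hc0
  rw [← sum_filter]
  have h4 : ((Icc 1 Y).filter (fun d => Nat.gcd a d ∣ g)).filter (fun d => c ∣ d) ⊆
      (Icc 1 Y).image (fun m => c * m) := by
    intro d hd
    rw [mem_filter, mem_filter, mem_Icc] at hd
    obtain ⟨⟨⟨h5, h6⟩, _⟩, ⟨m, rfl⟩⟩ := hd
    rw [mem_image]
    refine ⟨m, mem_Icc.mpr ⟨Nat.pos_of_ne_zero (by rintro rfl; simp at h5), ?_⟩, rfl⟩
    nlinarith
  calc ∑ d ∈ ((Icc 1 Y).filter (fun d => Nat.gcd a d ∣ g)).filter (fun d => c ∣ d),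
        (c : ℝ) ^ 3 / (d : ℝ) ^ 2
      ≤ ∑ d ∈ (Icc 1 Y).image (fun m => c * m), (c : ℝ) ^ 3 / (d : ℝ) ^ 2 :=
        sum_le_sum_of_subset_of_nonneg h4 (fun _ _ _ => by positivity)
    _ = ∑ m ∈ Icc 1 Y, (c : ℝ) ^ 3 / ((c * m : ℕ) : ℝ) ^ 2 := by
        rw [sum_image]
        intro x _ y _ hxy
        exact Nat.eq_of_mul_eq_mul_left hc0 hxy
    _ = c * ∑ m ∈ Icc 1 Y, (1 : ℝ) / (m : ℝ) ^ 2 := by
        rw [mul_sum]
        refine sum_congr rfl (fun m hm => ?_)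
        have hm0 : (0 : ℝ) < m := by
          have := (mem_Icc.mp hm).1
          exact_mod_cast this
        push_cast
        field_simp
    _ ≤ c * 2 := by
        apply mul_le_mul_of_nonneg_left (sum_inv_sq_le_two Y) hcr.le
    _ = 2 * c := by ring

/-- the data of a box and a residue class for the normal vector `w` -/
structure WBox (c0 c1 c2 L0 L1 L2 M : ℝ) (a : ℕ) (r0 r1 r2 : ℤ) (w : ℤ × ℤ × ℤ) : Prop where
  b0 : c0 ≤ w.1 ∧ (w.1 : ℝ) ≤ c0 + L0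
  b1 : c1 ≤ w.2.1 ∧ (w.2.1 : ℝ) ≤ c1 + L1
  b2 : c2 ≤ w.2.2 ∧ (w.2.2 : ℝ) ≤ c2 + L2
  m0 : (a : ℤ) ∣ w.1 - r0
  m1 : (a : ℤ) ∣ w.2.1 - r1
  m2 : (a : ℤ) ∣ w.2.2 - r2
  ne : w.1 ≠ 0
  le : |(w.1 : ℝ)| ≤ M

/-- the gcd of the three coordinates -/
def gg (w : ℤ × ℤ × ℤ) : ℕ := Int.gcd w.1 (Int.gcd w.2.1 w.2.2)

theorem dvd_gg {d : ℕ} {w : ℤ × ℤ × ℤ} : d ∣ gg w ↔ ((d : ℤ) ∣ w.1 ∧ (d : ℤ) ∣ w.2.1 ∧ (d : ℤ) ∣ w.2.2) := by
  unfold gg
  rw [← Int.natCast_dvd_natCast, Int.dvd_coe_gcd_iff, Int.dvd_coe_gcd_iff]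

theorem gcd_sum {W : Finset (ℤ × ℤ × ℤ)} {c0 c1 c2 L0 L1 L2 M : ℝ} {a : ℕ} {r0 r1 r2 : ℤ} {Y : ℕ}
    (ha : 0 < a) (hY : 0 < Y) (hL0 : (a : ℝ) * Y ≤ L0) (hL1 : (a : ℝ) * Y ≤ L1)
    (hL2 : (a : ℝ) * Y ≤ L2) (hM0 : L0 ≤ M) (hM1 : L1 ≤ M) (hM2 : L2 ≤ M)
    (hW : ∀ w ∈ W, WBox c0 c1 c2 L0 L1 L2 M a r0 r1 r2 w) {g : ℕ} (hg0 : 0 < g)
    (hg : ∀ d : ℕ, d ∣ a → (d : ℤ) ∣ r0 → (d : ℤ) ∣ r1 → (d : ℤ) ∣ r2 → d ∣ g) :
    ∑ w ∈ W, (gg w : ℝ) ≤ 16 * (∑ c ∈ g.divisors, (c : ℝ)) * (L0 * L1 * L2 / (a : ℝ) ^ 3) +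
      8 * M ^ 3 / Y := by
  classical
  have har : (0 : ℝ) < a := by exact_mod_cast ha
  have hYr : (0 : ℝ) < Y := by exact_mod_cast hY
  have hL0p : 0 < L0 := lt_of_lt_of_le (by positivity) hL0
  have hL1p : 0 < L1 := lt_of_lt_of_le (by positivity) hL1
  have hL2p : 0 < L2 := lt_of_lt_of_le (by positivity) hL2
  have hMp : 0 < M := lt_of_lt_of_le hL0p hM0
  obtain ⟨N, hN⟩ : ∃ N : ℕ, N = ⌊M⌋₊ := ⟨_, rfl⟩
  -- the sum as a sum over divisors
  have h1 : ∀ w ∈ W, (gg w : ℝ) = ∑ d ∈ Icc 1 N, (if d ∣ gg w then (Nat.totient d : ℝ) else 0) := by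
    intro w hw
    have hb := hW w hw
    have hpos : 0 < gg w := Int.gcd_pos_of_ne_zero_left _ hb.ne
    have hle : gg w ≤ N := by
      rw [hN]
      apply Nat.le_floor
      have h2 : gg w ≤ w.1.natAbs :=
        Nat.le_of_dvd (Int.natAbs_pos.mpr hb.ne) (Int.gcd_dvd_natAbs_left _ _)
      have h3 : ((w.1.natAbs : ℕ) : ℝ) = |(w.1 : ℝ)| := by
        rw [Nat.cast_natAbs]; push_cast; rfl
      calc ((gg w : ℕ) : ℝ) ≤ (w.1.natAbs : ℝ) := by exact_mod_cast h2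
        _ = |(w.1 : ℝ)| := h3
        _ ≤ M := hb.le
    rw [← sum_filter]
    have h4 : (Icc 1 N).filter (fun d => d ∣ gg w) = (gg w).divisors := by
      ext d
      simp only [mem_filter, mem_Icc, Nat.mem_divisors]
      constructor
      · rintro ⟨⟨_, _⟩, h⟩; exact ⟨h, hpos.ne'⟩
      · rintro ⟨h, _⟩
        exact ⟨⟨Nat.pos_of_dvd_of_pos h hpos, (Nat.le_of_dvd hpos h).trans hle⟩, h⟩
    rw [h4]
    have h5 := Nat.sum_totient (gg w)
    calc ((gg w : ℕ) : ℝ) = ((∑ d ∈ (gg w).divisors, Nat.totient d : ℕ) : ℝ) := by rw [h5]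
      _ = ∑ d ∈ (gg w).divisors, (Nat.totient d : ℝ) := by push_cast; rfl
  rw [sum_congr rfl h1, sum_comm]
  -- the bound for each d
  obtain ⟨A, hA⟩ : ∃ A : ℝ, A = L0 * L1 * L2 / (a : ℝ) ^ 3 := ⟨_, rfl⟩
  have hA0 : 0 ≤ A := by rw [hA]; positivity
  have h2 : ∀ d ∈ Icc 1 N, ∑ w ∈ W, (if d ∣ gg w then (Nat.totient d : ℝ) else 0) ≤
      (if d ≤ Y ∧ Nat.gcd a d ∣ g then 8 * A * ((Nat.gcd a d : ℝ) ^ 3 / (d : ℝ) ^ 2) else 0) +
      (if Y < d then 8 * M ^ 3 * (1 / (d : ℝ) ^ 2) else 0) := by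
    intro d hd
    rw [mem_Icc] at hd
    have hdp : 0 < d := hd.1
    have hdr : (0 : ℝ) < d := by exact_mod_cast hdp
    have hdM : (d : ℝ) ≤ M := by
      have : (d : ℝ) ≤ (N : ℝ) := by exact_mod_cast hd.2
      exact this.trans (by rw [hN]; exact Nat.floor_le hMp.le)
    rw [← sum_filter, sum_const, nsmul_eq_mul]
    obtain ⟨V, hV⟩ : ∃ V : Finset (ℤ × ℤ × ℤ), V = W.filter (fun w => d ∣ gg w) := ⟨_, rfl⟩
    rw [← hV]
    obtain ⟨c, hc⟩ : ∃ c : ℕ, c = Nat.gcd a d := ⟨_, rfl⟩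
    have hc0 : 0 < c := by rw [hc]; exact Nat.gcd_pos_of_pos_left _ ha
    have hcr : (0 : ℝ) < c := by exact_mod_cast hc0
    have hca : c ∣ a := by rw [hc]; exact Nat.gcd_dvd_left _ _
    have hcar : (c : ℝ) ≤ a := by exact_mod_cast Nat.le_of_dvd ha hca
    have htot : (Nat.totient d : ℝ) ≤ d := by exact_mod_cast Nat.totient_le d
    rw [← hc]
    by_cases hVe : V = ∅
    · rw [hVe]
      simp only [card_empty, CharP.cast_eq_zero, zero_mul]
      have e1 : 0 ≤ (if d ≤ Y ∧ c ∣ g then 8 * A * ((c : ℝ) ^ 3 / (d : ℝ) ^ 2) else 0) := by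
        split_ifs <;> positivity
      have e2 : 0 ≤ (if Y < d then 8 * M ^ 3 * (1 / (d : ℝ) ^ 2) else 0) := by
        split_ifs <;> positivity
      linarith
    -- V is nonempty
    have hcg : c ∣ g := by
      obtain ⟨w, hw⟩ := Finset.nonempty_iff_ne_empty.mpr hVe
      rw [hV, mem_filter, dvd_gg] at hw
      obtain ⟨hwW, hw0, hw1, hw2⟩ := hw
      have hb := hW w hwW
      have hcd : (c : ℤ) ∣ (d : ℤ) := by
        rw [hc]; exact Int.natCast_dvd_natCast.mpr (Nat.gcd_dvd_right _ _)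
      have hca' : (c : ℤ) ∣ (a : ℤ) := Int.natCast_dvd_natCast.mpr hca
      have key : ∀ x r : ℤ, (d : ℤ) ∣ x → (a : ℤ) ∣ x - r → (c : ℤ) ∣ r := by
        intro x r hx hr
        have e : r = x - (x - r) := by ring
        rw [e]
        exact dvd_sub (hcd.trans hx) (hca'.trans hr)
      exact hg c hca (key _ _ hw0 hb.m0) (key _ _ hw1 hb.m1) (key _ _ hw2 hb.m2)
    have hcount : (V.card : ℝ) ≤ (L0 * c / (a * d) + 1) * (L1 * c / (a * d) + 1) *
        (L2 * c / (a * d) + 1) := by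
      have i0 := card_class (A := V.image (fun w => w.1)) (c := c0) (L := L0) (a := a) (d := d)
        (r := r0) ha hdp hL0p.le (by
          intro x hx; rw [mem_image] at hx; obtain ⟨w, hw, rfl⟩ := hx
          rw [hV, mem_filter] at hw; exact (hW w hw.1).b0) (by
          intro x hx; rw [mem_image] at hx; obtain ⟨w, hw, rfl⟩ := hx
          rw [hV, mem_filter] at hw; exact (hW w hw.1).m0) (by
          intro x hx; rw [mem_image] at hx; obtain ⟨w, hw, rfl⟩ := hx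
          rw [hV, mem_filter, dvd_gg] at hw; exact hw.2.1)
      have i1 := card_class (A := V.image (fun w => w.2.1)) (c := c1) (L := L1) (a := a) (d := d)
        (r := r1) ha hdp hL1p.le (by
          intro x hx; rw [mem_image] at hx; obtain ⟨w, hw, rfl⟩ := hx
          rw [hV, mem_filter] at hw; exact (hW w hw.1).b1) (by
          intro x hx; rw [mem_image] at hx; obtain ⟨w, hw, rfl⟩ := hx
          rw [hV, mem_filter] at hw; exact (hW w hw.1).m1) (by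
          intro x hx; rw [mem_image] at hx; obtain ⟨w, hw, rfl⟩ := hx
          rw [hV, mem_filter, dvd_gg] at hw; exact hw.2.2.1)
      have i2 := card_class (A := V.image (fun w => w.2.2)) (c := c2) (L := L2) (a := a) (d := d)
        (r := r2) ha hdp hL2p.le (by
          intro x hx; rw [mem_image] at hx; obtain ⟨w, hw, rfl⟩ := hx
          rw [hV, mem_filter] at hw; exact (hW w hw.1).b2) (by
          intro x hx; rw [mem_image] at hx; obtain ⟨w, hw, rfl⟩ := hx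
          rw [hV, mem_filter] at hw; exact (hW w hw.1).m2) (by
          intro x hx; rw [mem_image] at hx; obtain ⟨w, hw, rfl⟩ := hx
          rw [hV, mem_filter, dvd_gg] at hw; exact hw.2.2.2)
      rw [← hc] at i0 i1 i2
      have hsub : V ⊆ (V.image (fun w => w.1)) ×ˢ ((V.image (fun w => w.2.1)) ×ˢ
          (V.image (fun w => w.2.2))) := by
        intro w hw
        simp only [mem_product, mem_image]
        exact ⟨⟨w, hw, rfl⟩, ⟨w, hw, rfl⟩, ⟨w, hw, rfl⟩⟩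
      have h3 := card_le_card hsub
      rw [card_product, card_product] at h3
      have h4 : (V.card : ℝ) ≤ ((V.image (fun w => w.1)).card : ℝ) *
          (((V.image (fun w => w.2.1)).card : ℝ) * ((V.image (fun w => w.2.2)).card : ℝ)) := by
        exact_mod_cast h3
      refine h4.trans ?_
      rw [mul_assoc]
      gcongr
    have hQ : ∀ L : ℝ, 0 < L → (a : ℝ) * Y ≤ L → d ≤ Y → L * c / (a * d) + 1 ≤
        2 * (L * c / (a * d)) := by
      intro L hL hLY hdY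
      have h5 : 1 ≤ L * c / (a * d) := by
        rw [le_div_iff₀ (by positivity), one_mul]
        have h6 : (d : ℝ) ≤ Y := by exact_mod_cast hdY
        have h7 : (1 : ℝ) ≤ c := by exact_mod_cast hc0
        calc (a : ℝ) * d ≤ a * Y := by gcongr
          _ ≤ L := hLY
          _ ≤ L * c := by nlinarith
      linarith
    have hR : ∀ L : ℝ, 0 < L → L ≤ M → L * c / (a * d) + 1 ≤ 2 * (M / d) := by
      intro L hL hLM
      have h5 : L * c / (a * d) ≤ M / d := by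
        rw [div_le_div_iff₀ (by positivity) hdr]
        calc L * c * d ≤ M * a * d := by gcongr
          _ = M * (a * d) := by ring
      have h6 : 1 ≤ M / d := by rw [le_div_iff₀ hdr, one_mul]; exact hdM
      linarith
    rcases Nat.lt_or_ge Y d with hlt | hge
    · have h5 : (V.card : ℝ) ≤ (2 * (M / d)) * (2 * (M / d)) * (2 * (M / d)) := by
        refine hcount.trans ?_
        have j0 := hR L0 hL0p hM0
        have j1 := hR L1 hL1p hM1
        have j2 := hR L2 hL2p hM2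
        gcongr
      have h6 : (V.card : ℝ) * (Nat.totient d : ℝ) ≤ 8 * M ^ 3 * (1 / (d : ℝ) ^ 2) := by
        calc (V.card : ℝ) * (Nat.totient d : ℝ)
            ≤ ((2 * (M / d)) * (2 * (M / d)) * (2 * (M / d))) * d := by gcongr
          _ = 8 * M ^ 3 * (1 / (d : ℝ) ^ 2) := by field_simp; ring
      have e1 : 0 ≤ (if d ≤ Y ∧ c ∣ g then 8 * A * ((c : ℝ) ^ 3 / (d : ℝ) ^ 2) else 0) := by
        split_ifs <;> positivity
      rw [if_pos hlt]
      linarith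
    · have h5 : (V.card : ℝ) ≤ (2 * (L0 * c / (a * d))) * (2 * (L1 * c / (a * d))) *
          (2 * (L2 * c / (a * d))) := by
        refine hcount.trans ?_
        have j0 := hQ L0 hL0p hL0 hge
        have j1 := hQ L1 hL1p hL1 hge
        have j2 := hQ L2 hL2p hL2 hge
        gcongr
      have h6 : (V.card : ℝ) * (Nat.totient d : ℝ) ≤ 8 * A * ((c : ℝ) ^ 3 / (d : ℝ) ^ 2) := by
        calc (V.card : ℝ) * (Nat.totient d : ℝ)
            ≤ ((2 * (L0 * c / (a * d))) * (2 * (L1 * c / (a * d))) *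
              (2 * (L2 * c / (a * d)))) * d := by gcongr
          _ = 8 * A * ((c : ℝ) ^ 3 / (d : ℝ) ^ 2) := by rw [hA]; field_simp; ring
      rw [if_pos ⟨hge, hcg⟩]
      have e2 : 0 ≤ (if Y < d then 8 * M ^ 3 * (1 / (d : ℝ) ^ 2) else 0) := by
        split_ifs <;> positivity
      linarith
  refine (sum_le_sum h2).trans ?_
  rw [sum_add_distrib]
  have h3 : ∑ d ∈ Icc 1 N, (if d ≤ Y ∧ Nat.gcd a d ∣ g then
      8 * A * ((Nat.gcd a d : ℝ) ^ 3 / (d : ℝ) ^ 2) else 0) ≤ 8 * A * (2 * ∑ c ∈ g.divisors, (c : ℝ)) := by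
    rw [← sum_filter, ← mul_sum]
    apply mul_le_mul_of_nonneg_left _ (by positivity)
    refine le_trans ?_ (sum_gcd_le (a := a) hg0 Y)
    refine sum_le_sum_of_subset_of_nonneg ?_ (fun _ _ _ => by positivity)
    intro d hd
    rw [mem_filter, mem_Icc] at hd ⊢
    exact ⟨⟨hd.1.1, hd.2.1⟩, hd.2.2⟩
  have h4 : ∑ d ∈ Icc 1 N, (if Y < d then 8 * M ^ 3 * (1 / (d : ℝ) ^ 2) else 0) ≤
      8 * M ^ 3 * (1 / Y) := by
    rw [← sum_filter, ← mul_sum]
    apply mul_le_mul_of_nonneg_left _ (by positivity)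
    refine le_trans ?_ (sum_tail_le (N := N) hY)
    refine sum_le_sum_of_subset_of_nonneg ?_ (fun _ _ _ => by positivity)
    intro d hd
    rw [mem_filter, mem_Icc] at hd
    rw [mem_Ioc]
    exact ⟨hd.2, hd.1.2⟩
  rw [← hA]
  calc _ ≤ 8 * A * (2 * ∑ c ∈ g.divisors, (c : ℝ)) + 8 * M ^ 3 * (1 / Y) := add_le_add h3 h4
    _ = _ := by ring

end Pool.Agent.PP5R
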