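import Pool.Agent.PP5R.Fib

/-!
# PP5, region count: pairs `(w, v)` with `w · v = N`
-/

set_option autoImplicit false

namespace Pool.Agent.PP5R

open Finset

/-- the parameters: `T` the size, `H` the side of the boxes, `a` the modulus, all losses are
powers of `Q` -/
structure Par (T H Q : ℝ) (a : ℕ) : Prop where
  hQ : 2 ≤ Q
  hT : Q ^ 100 ≤ T
  ha : 0 < a
  haQ : (a : ℝ) ≤ Q
  hH : T ≤ H * Q
  hHT : H ≤ 16 * T

/-- a scale: between `1 / Q` and `Q` -/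
structure Scl (Q ρ : ℝ) : Prop where
  lo : 1 ≤ Q * ρ
  hi : ρ ≤ Q

theorem Scl.pos {Q ρ : ℝ} (hQ : 2 ≤ Q) (h : Scl Q ρ) : 0 < ρ := by
  by_contra hn
  have := h.lo
  nlinarith

theorem Par.powle {T H Q : ℝ} {a : ℕ} (h : Par T H Q a) (n : ℕ) (hn : n ≤ 100) : Q ^ n ≤ T :=
  (pow_le_pow_right₀ (by linarith [h.hQ]) hn).trans h.hT

theorem Par.T1 {T H Q : ℝ} {a : ℕ} (h : Par T H Q a) : 1 ≤ T := by
  have := h.powle 0 (by norm_num)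
  simpa using this

theorem Par.big {T H Q : ℝ} {a : ℕ} (h : Par T H Q a) : 2 ^ 60 * Q ^ 40 ≤ T := by
  have h1 : (2 : ℝ) ^ 60 ≤ Q ^ 60 := pow_le_pow_left₀ (by norm_num) h.hQ 60
  calc (2 : ℝ) ^ 60 * Q ^ 40 ≤ Q ^ 60 * Q ^ 40 := by
        apply mul_le_mul_of_nonneg_right h1
        have := h.hQ
        positivity
    _ = Q ^ 100 := by ring
    _ ≤ T := h.hT

/-- the number of normal vectors -/
theorem card_W {T H Q : ℝ} {a : ℕ} (hP : Par T H Q a) {ρ0 ρ1 ρ2 c0 c1 c2 : ℝ} (h0 : Scl Q ρ0)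
    (h1 : Scl Q ρ1) (h2 : Scl Q ρ2) {r0 r1 r2 : ℤ} (W : Finset (ℤ × ℤ × ℤ))
    (hb0 : ∀ w ∈ W, |(w.1 : ℝ) - c0| ≤ H / ρ0) (hb1 : ∀ w ∈ W, |(w.2.1 : ℝ) - c1| ≤ H / ρ1)
    (hb2 : ∀ w ∈ W, |(w.2.2 : ℝ) - c2| ≤ H / ρ2)
    (hr0 : ∀ w ∈ W, (a : ℤ) ∣ w.1 - r0) (hr1 : ∀ w ∈ W, (a : ℤ) ∣ w.2.1 - r1)
    (hr2 : ∀ w ∈ W, (a : ℤ) ∣ w.2.2 - r2) :
    (W.card : ℝ) ≤ 27 * ((H / a) ^ 3 / (ρ0 * ρ1 * ρ2)) := by
  classical
  have har : (0 : ℝ) < a := by exact_mod_cast hP.ha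
  have hQ0 : 0 < Q := by linarith [hP.hQ]
  have p0 := h0.pos hP.hQ
  have p1 := h1.pos hP.hQ
  have p2 := h2.pos hP.hQ
  have hH0 : 0 < H := by
    have := hP.T1; have := hP.hH
    by_contra hn
    nlinarith
  have one : ∀ (A : Finset ℤ) (c ρ : ℝ) (r : ℤ), Scl Q ρ → (∀ x ∈ A, |(x : ℝ) - c| ≤ H / ρ) →
      (∀ x ∈ A, (a : ℤ) ∣ x - r) → (A.card : ℝ) ≤ 3 * (H / a / ρ) := by
    intro A c ρ r hρ hA hr
    have pp := hρ.pos hP.hQ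
    have i0 := card_class (A := A) (c := c - H / ρ) (L := 2 * (H / ρ)) (a := a) (d := 1) (r := r)
      hP.ha one_pos (by positivity) (by
        intro x hx
        have := abs_le.mp (hA x hx)
        exact ⟨by linarith [this.1], by linarith [this.2]⟩) hr (fun x _ => by simp)
    have e : 1 ≤ H / a / ρ := by
      rw [le_div_iff₀ pp, le_div_iff₀ har, one_mul]
      have h3 : ρ * a ≤ Q * Q := mul_le_mul hρ.hi hP.haQ har.le hQ0.le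
      have h4 := hP.powle 3 (by norm_num)
      have h5 : Q ^ 3 ≤ H * Q := h4.trans hP.hH
      have h6 : Q * Q * Q ≤ H * Q := by nlinarith
      have h7 : Q * Q ≤ H := le_of_mul_le_mul_right h6 hQ0
      linarith
    have e2 : 2 * (H / ρ) * ((Nat.gcd a 1 : ℕ) : ℝ) / ((a : ℝ) * ((1 : ℕ) : ℝ)) = 2 * (H / a / ρ) := by
      rw [Nat.gcd_one_right]; push_cast; field_simp
    rw [e2] at i0
    linarith
  have hsub : W ⊆ (W.image (fun w => w.1)) ×ˢ ((W.image (fun w => w.2.1)) ×ˢ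
      (W.image (fun w => w.2.2))) := by
    intro w hw
    simp only [mem_product, mem_image]
    exact ⟨⟨w, hw, rfl⟩, ⟨w, hw, rfl⟩, ⟨w, hw, rfl⟩⟩
  have h3 := card_le_card hsub
  rw [card_product, card_product] at h3
  have i0 := one (W.image (fun w => w.1)) c0 ρ0 r0 h0 (by
    intro x hx; rw [mem_image] at hx; obtain ⟨w, hw, rfl⟩ := hx; exact hb0 w hw) (by
    intro x hx; rw [mem_image] at hx; obtain ⟨w, hw, rfl⟩ := hx; exact hr0 w hw)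
  have i1 := one (W.image (fun w => w.2.1)) c1 ρ1 r1 h1 (by
    intro x hx; rw [mem_image] at hx; obtain ⟨w, hw, rfl⟩ := hx; exact hb1 w hw) (by
    intro x hx; rw [mem_image] at hx; obtain ⟨w, hw, rfl⟩ := hx; exact hr1 w hw)
  have i2 := one (W.image (fun w => w.2.2)) c2 ρ2 r2 h2 (by
    intro x hx; rw [mem_image] at hx; obtain ⟨w, hw, rfl⟩ := hx; exact hb2 w hw) (by
    intro x hx; rw [mem_image] at hx; obtain ⟨w, hw, rfl⟩ := hx; exact hr2 w hw)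
  calc (W.card : ℝ) ≤ ((W.image (fun w => w.1)).card : ℝ) *
          (((W.image (fun w => w.2.1)).card : ℝ) * ((W.image (fun w => w.2.2)).card : ℝ)) := by
        exact_mod_cast h3
    _ ≤ (3 * (H / a / ρ0)) * ((3 * (H / a / ρ1)) * (3 * (H / a / ρ2))) := by gcongr
    _ = 27 * ((H / a) ^ 3 / (ρ0 * ρ1 * ρ2)) := by field_simp; ring

/-- the sum of the gcd over the normal vectors -/
theorem sum_gg {T H Q : ℝ} {a : ℕ} (hP : Par T H Q a) {ρ0 ρ1 ρ2 c0 c1 c2 : ℝ} (h0 : Scl Q ρ0)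
    (h1 : Scl Q ρ1) (h2 : Scl Q ρ2) {r0 r1 r2 : ℤ} (W : Finset (ℤ × ℤ × ℤ))
    (hb0 : ∀ w ∈ W, |(w.1 : ℝ) - c0| ≤ H / ρ0) (hb1 : ∀ w ∈ W, |(w.2.1 : ℝ) - c1| ≤ H / ρ1)
    (hb2 : ∀ w ∈ W, |(w.2.2 : ℝ) - c2| ≤ H / ρ2)
    (hr0 : ∀ w ∈ W, (a : ℤ) ∣ w.1 - r0) (hr1 : ∀ w ∈ W, (a : ℤ) ∣ w.2.1 - r1)
    (hr2 : ∀ w ∈ W, (a : ℤ) ∣ w.2.2 - r2) (hM : ∀ w ∈ W, |(w.1 : ℝ)| ≤ T * Q)
    (hne : ∀ w ∈ W, w.1 ≠ 0) {g : ℕ} (hg0 : 0 < g)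
    (hg : ∀ d : ℕ, d ∣ a → (d : ℤ) ∣ r0 → (d : ℤ) ∣ r1 → (d : ℤ) ∣ r2 → d ∣ g) :
    ∑ w ∈ W, (gg w : ℝ) ≤ (128 * (∑ c ∈ g.divisors, (c : ℝ)) + 64) *
      ((H / a) ^ 3 / (ρ0 * ρ1 * ρ2)) := by
  have har : (0 : ℝ) < a := by exact_mod_cast hP.ha
  have hQ0 : 0 < Q := by linarith [hP.hQ]
  have hQ1 : 1 ≤ Q := by linarith [hP.hQ]
  have hT0 : 0 < T := by linarith [hP.T1]
  have p0 := h0.pos hP.hQ
  have p1 := h1.pos hP.hQ
  have p2 := h2.pos hP.hQ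
  have hH0 : 0 < H := by
    have := hP.T1; have := hP.hH
    by_contra hn
    nlinarith
  obtain ⟨Y, hY⟩ : ∃ Y : ℕ, Y = ⌈Q ^ 30⌉₊ := ⟨_, rfl⟩
  have hY1 : Q ^ 30 ≤ Y := by rw [hY]; exact Nat.le_ceil _
  have hq18 : 1 ≤ Q ^ 30 := one_le_pow₀ hQ1
  have hY2 : (Y : ℝ) ≤ 2 * Q ^ 30 := by
    rw [hY]
    have := Nat.ceil_lt_add_one (a := Q ^ 30) (by positivity)
    linarith
  have hYr : (0 : ℝ) < Y := by linarith
  have hY0 : 0 < Y := by exact_mod_cast hYr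
  have hL : ∀ ρ : ℝ, Scl Q ρ → (a : ℝ) * Y ≤ 2 * (H / ρ) := by
    intro ρ hρ
    have pp := hρ.pos hP.hQ
    have e1 : (a : ℝ) * Y * ρ ≤ 2 * Q ^ 32 := by
      calc (a : ℝ) * Y * ρ ≤ Q * (2 * Q ^ 30) * Q := by
            gcongr
            · exact hP.haQ
            · exact hρ.hi
        _ = 2 * Q ^ 32 := by ring
    have e2 : Q ^ 32 ≤ H := by
      have h4 := hP.powle 33 (by norm_num)
      have h5 : Q ^ 32 * Q ≤ H * Q := by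
        calc Q ^ 32 * Q = Q ^ 33 := by ring
          _ ≤ T := h4
          _ ≤ H * Q := hP.hH
      exact le_of_mul_le_mul_right h5 hQ0
    rw [← mul_div_assoc, le_div_iff₀ pp]
    linarith
  have hM' : ∀ ρ : ℝ, Scl Q ρ → 2 * (H / ρ) ≤ 32 * T * Q := by
    intro ρ hρ
    have pp := hρ.pos hP.hQ
    have e1 : H / ρ ≤ 16 * T * Q := by
      rw [div_le_iff₀ pp]
      calc H ≤ 16 * T := hP.hHT
        _ = 16 * T * 1 := by ring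
        _ ≤ 16 * T * (Q * ρ) := by
            apply mul_le_mul_of_nonneg_left hρ.lo (by positivity)
        _ = 16 * T * Q * ρ := by ring
    linarith
  have key := gcd_sum (W := W) (c0 := c0 - H / ρ0) (c1 := c1 - H / ρ1) (c2 := c2 - H / ρ2)
    (L0 := 2 * (H / ρ0)) (L1 := 2 * (H / ρ1)) (L2 := 2 * (H / ρ2)) (M := 32 * T * Q) (a := a)
    (r0 := r0) (r1 := r1) (r2 := r2) (Y := Y) hP.ha hY0 (hL ρ0 h0) (hL ρ1 h1) (hL ρ2 h2)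
    (hM' ρ0 h0) (hM' ρ1 h1) (hM' ρ2 h2) (by
      intro w hw
      have a0 := abs_le.mp (hb0 w hw)
      have a1 := abs_le.mp (hb1 w hw)
      have a2 := abs_le.mp (hb2 w hw)
      refine ⟨⟨by linarith [a0.1], by linarith [a0.2]⟩, ⟨by linarith [a1.1], by linarith [a1.2]⟩,
        ⟨by linarith [a2.1], by linarith [a2.2]⟩, hr0 w hw, hr1 w hw, hr2 w hw, hne w hw, ?_⟩
      have := hM w hw
      nlinarith) hg0 hg
  refine key.trans ?_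
  have hX0 : 0 < (H / a) ^ 3 / (ρ0 * ρ1 * ρ2) := by positivity
  have e1 : 2 * (H / ρ0) * (2 * (H / ρ1)) * (2 * (H / ρ2)) / (a : ℝ) ^ 3 =
      8 * ((H / a) ^ 3 / (ρ0 * ρ1 * ρ2)) := by field_simp; ring
  rw [e1]
  have e2 : 8 * (32 * T * Q) ^ 3 / (Y : ℝ) ≤ 64 * ((H / a) ^ 3 / (ρ0 * ρ1 * ρ2)) := by
    rw [div_le_iff₀ hYr]
    have hρ : ρ0 * ρ1 * ρ2 ≤ Q ^ 3 := by
      calc ρ0 * ρ1 * ρ2 ≤ Q * Q * Q := by
            gcongr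
            · exact h0.hi
            · exact h1.hi
            · exact h2.hi
        _ = Q ^ 3 := by ring
    have hHa : T / Q ^ 2 ≤ H / a := by
      rw [div_le_div_iff₀ (by positivity) har]
      calc T * a ≤ (H * Q) * Q := by
            gcongr
            · exact hP.hH
            · exact hP.haQ
        _ = H * Q ^ 2 := by ring
    have e3 : (T / Q ^ 2) ^ 3 / Q ^ 3 ≤ (H / a) ^ 3 / (ρ0 * ρ1 * ρ2) := by
      gcongr
    have e4 : 4096 * (T ^ 3 * Q ^ 3) ≤ (T / Q ^ 2) ^ 3 / Q ^ 3 * Y := by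
      have e5 : (T / Q ^ 2) ^ 3 / Q ^ 3 * Q ^ 30 = T ^ 3 * Q ^ 21 := by field_simp
      have e6 : 4096 * (T ^ 3 * Q ^ 3) ≤ T ^ 3 * Q ^ 21 := by
        have h12 : (2 : ℝ) ^ 12 ≤ Q ^ 12 := pow_le_pow_left₀ (by norm_num) hP.hQ 12
        have h13 : Q ^ 3 ≤ Q ^ 9 := pow_le_pow_right₀ hQ1 (by norm_num)
        have h14 : 2 ^ 12 * Q ^ 3 ≤ Q ^ 12 * Q ^ 9 := by gcongr
        calc 4096 * (T ^ 3 * Q ^ 3) = T ^ 3 * (2 ^ 12 * Q ^ 3) := by ring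
          _ ≤ T ^ 3 * (Q ^ 12 * Q ^ 9) := by gcongr
          _ = T ^ 3 * Q ^ 21 := by ring
      calc 4096 * (T ^ 3 * Q ^ 3) ≤ T ^ 3 * Q ^ 21 := e6
        _ = (T / Q ^ 2) ^ 3 / Q ^ 3 * Q ^ 30 := e5.symm
        _ ≤ (T / Q ^ 2) ^ 3 / Q ^ 3 * Y := by gcongr
    calc 8 * (32 * T * Q) ^ 3 = 64 * (4096 * (T ^ 3 * Q ^ 3)) := by ring
      _ ≤ 64 * ((T / Q ^ 2) ^ 3 / Q ^ 3 * Y) := by linarith
      _ ≤ 64 * ((H / a) ^ 3 / (ρ0 * ρ1 * ρ2) * Y) := by gcongr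
      _ = _ := by ring
  linarith

end Pool.Agent.PP5R
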