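import Pool.Agent.PP5R.Pair

/-!
# PP5, region count: the number of pairs `(w, v)` with `w · v = N`
-/

set_option autoImplicit false

namespace Pool.Agent.PP5R

open Finset

/-- exceptional normal vectors: orthogonal to a short vector -/
def Exc (E : ℝ) (w : ℤ × ℤ × ℤ) : Prop :=
  ∃ e : ℤ × ℤ × ℤ, e.2 ≠ 0 ∧ |(e.1 : ℝ)| ≤ E ∧ |(e.2.1 : ℝ)| ≤ E ∧
      |(e.2.2 : ℝ)| ≤ E ∧ w.1 * e.1 + w.2.1 * e.2.1 + w.2.2 * e.2.2 = 0

theorem Par.H0 {T H Q : ℝ} {a : ℕ} (hP : Par T H Q a) : 0 < H := by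
  have := hP.T1; have := hP.hH; have := hP.hQ
  by_contra hn
  nlinarith

theorem Par.Ha {T H Q : ℝ} {a : ℕ} (hP : Par T H Q a) : T / Q ^ 2 ≤ H / a := by
  have har : (0 : ℝ) < a := by exact_mod_cast hP.ha
  have hQ0 : 0 < Q := by linarith [hP.hQ]
  rw [div_le_div_iff₀ (by positivity) har]
  have := hP.H0
  calc T * a ≤ (H * Q) * Q := by
        gcongr
        · exact hP.hH
        · exact hP.haQ
    _ = H * Q ^ 2 := by ring

/-- the fibre over one normal vector, both cases -/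
theorem fibre_le {T H Q : ℝ} {a : ℕ} (hP : Par T H Q a) {ρ0 ρ1 ρ2 c1 c2 : ℝ} (h0 : Scl Q ρ0)
    (h1 : Scl Q ρ1) (h2 : Scl Q ρ2) {w : ℤ × ℤ × ℤ}
    (hbig : T / ρ0 ≤ |(w.1 : ℝ)|) (hM1 : |(w.2.1 : ℝ)| ≤ T * Q) (hM2 : |(w.2.2 : ℝ)| ≤ T * Q)
    {N r0 r1 r2 : ℤ} (V : Finset (ℤ × ℤ × ℤ))
    (hN : ∀ v ∈ V, w.1 * v.1 + w.2.1 * v.2.1 + w.2.2 * v.2.2 = N)
    (hv1 : ∀ v ∈ V, |(v.2.1 : ℝ) - c1| ≤ H * ρ1) (hv2 : ∀ v ∈ V, |(v.2.2 : ℝ) - c2| ≤ H * ρ2)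
    (hr0 : ∀ v ∈ V, (a : ℤ) ∣ v.1 - r0) (hr1 : ∀ v ∈ V, (a : ℤ) ∣ v.2.1 - r1)
    (hr2 : ∀ v ∈ V, (a : ℤ) ∣ v.2.2 - r2) (U : ℝ) (hU : 0 ≤ U)
    (hexc : Exc (12 * Q ^ 8) w → 96 * T * Q ≤ U) :
    (V.card : ℝ) ≤ U + (H / a) ^ 2 * (ρ0 * ρ1 * ρ2) / T +
      48 * ((H / a) ^ 2 * (ρ0 * ρ1 * ρ2) / T) * gg w := by
  classical
  have har : (0 : ℝ) < a := by exact_mod_cast hP.ha
  have ha1 : (1 : ℝ) ≤ a := by exact_mod_cast hP.ha
  have hQ0 : 0 < Q := by linarith [hP.hQ]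
  have hQ1 : 1 ≤ Q := by linarith [hP.hQ]
  have hT0 : 0 < T := by linarith [hP.T1]
  have hT1 := hP.T1
  have hH0 := hP.H0
  have p0 := h0.pos hP.hQ
  have p1 := h1.pos hP.hQ
  have p2 := h2.pos hP.hQ
  have hwpos : 0 < |(w.1 : ℝ)| := lt_of_lt_of_le (by positivity) hbig
  have hw : w.1 ≠ 0 := by
    intro h
    rw [h] at hwpos
    simp at hwpos
  -- the last term
  have hlast : 12 * ((2 * (H * ρ1) / a) * (2 * (H * ρ2) / a) * (gg w : ℝ) / |(w.1 : ℝ)|) ≤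
      48 * ((H / a) ^ 2 * (ρ0 * ρ1 * ρ2) / T) * gg w := by
    have e1 : (2 * (H * ρ1) / a) * (2 * (H * ρ2) / a) * (gg w : ℝ) / |(w.1 : ℝ)| ≤
        (2 * (H * ρ1) / a) * (2 * (H * ρ2) / a) * (gg w : ℝ) / (T / ρ0) := by gcongr
    have e2 : (2 * (H * ρ1) / a) * (2 * (H * ρ2) / a) * (gg w : ℝ) / (T / ρ0) =
        4 * ((H / a) ^ 2 * (ρ0 * ρ1 * ρ2) / T) * gg w := by field_simp; ring
    rw [e2] at e1
    linarith
  have hX0 : 0 < (H / a) ^ 2 * (ρ0 * ρ1 * ρ2) / T := by positivity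
  by_cases hex : Exc (12 * Q ^ 8) w
  · -- trivial bound
    have hD : ∀ ρ : ℝ, Scl Q ρ → 1 / (32 * T * Q) * (2 * (H * ρ) / a) ≤ 1 := by
      intro ρ hρ
      have pp := hρ.pos hP.hQ
      have e1 : 2 * (H * ρ) / a ≤ 32 * T * Q := by
        rw [div_le_iff₀ har]
        calc 2 * (H * ρ) ≤ 2 * ((16 * T) * Q) := by
              gcongr
              · exact hP.hHT
              · exact hρ.hi
          _ = 32 * T * Q * 1 := by ring
          _ ≤ 32 * T * Q * a := by gcongr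
      rw [one_div, ← div_eq_inv_mul, div_le_one (by positivity)]
      exact e1
    have key := fibre hw (N := N) hP.ha (c1 := c1) (c2 := c2) (B1 := H * ρ1) (B2 := H * ρ2)
      (lam := 1 / (32 * T * Q)) (r0 := r0) (r1 := r1) (r2 := r2) (by positivity) (by positivity)
      (by positivity) (by
        rw [div_le_one (by positivity)]
        nlinarith) V hN hv1 hv2 hr0 hr1 hr2 (by
        intro y hy hdvd
        by_cases hy1 : y.1 = 0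
        · right
          have hy2 : y.2 ≠ 0 := by
            intro h
            exact hy (Prod.ext hy1 h)
          have : (1 : ℤ) ≤ |y.2| := Int.one_le_abs hy2
          have : (1 : ℝ) ≤ |(y.2 : ℝ)| := by exact_mod_cast this
          exact (hD ρ2 h2).trans this
        · left
          have : (1 : ℤ) ≤ |y.1| := Int.one_le_abs hy1
          have : (1 : ℝ) ≤ |(y.1 : ℝ)| := by exact_mod_cast this
          exact (hD ρ1 h1).trans this)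
    have e1 : 3 / (1 / (32 * T * Q)) = 96 * T * Q := by field_simp; ring
    rw [e1] at key
    have := hexc hex
    linarith
  · -- the regular case
    have hPp : 0 < ρ0 * ρ1 * ρ2 := by positivity
    obtain ⟨P, hPe⟩ : ∃ P : ℝ, P = ρ0 * ρ1 * ρ2 := ⟨_, rfl⟩
    rw [← hPe] at hPp hlast hX0 ⊢
    have hPlow : 1 ≤ Q ^ 3 * P := by
      have e1 := h0.lo
      have e2 := h1.lo
      have e3 := h2.lo
      have e4 : Q ^ 3 * P = (Q * ρ0) * (Q * ρ1) * (Q * ρ2) := by rw [hPe]; ring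
      rw [e4]
      calc (1 : ℝ) = 1 * 1 * 1 := by ring
        _ ≤ (Q * ρ0) * (Q * ρ1) * (Q * ρ2) := by gcongr
    obtain ⟨lam, hlam⟩ : ∃ lam : ℝ, lam = 3 * T * a ^ 2 / (H ^ 2 * P) := ⟨_, rfl⟩
    have hlam0 : 0 < lam := by rw [hlam]; positivity
    have hHQ : T ≤ H * Q := hP.hH
    have hlam1 : lam ≤ 1 := by
      rw [hlam, div_le_one (by positivity)]
      -- 3 T a^2 ≤ H^2 P
      have e1 : 3 * T * (a : ℝ) ^ 2 * Q ^ 5 ≤ H ^ 2 * P * Q ^ 5 := by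
        have e2 : T ^ 2 ≤ H ^ 2 * Q ^ 2 := by
          calc T ^ 2 ≤ (H * Q) ^ 2 := by gcongr
            _ = H ^ 2 * Q ^ 2 := by ring
        have e3 : T ^ 2 ≤ H ^ 2 * P * Q ^ 5 := by
          calc T ^ 2 ≤ H ^ 2 * Q ^ 2 := e2
            _ = H ^ 2 * Q ^ 2 * 1 := by ring
            _ ≤ H ^ 2 * Q ^ 2 * (Q ^ 3 * P) := by gcongr
            _ = H ^ 2 * P * Q ^ 5 := by ring
        have e4 : 3 * (a : ℝ) ^ 2 * Q ^ 5 ≤ T := by
          calc 3 * (a : ℝ) ^ 2 * Q ^ 5 ≤ 3 * Q ^ 2 * Q ^ 5 := by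
                gcongr
                exact hP.haQ
            _ ≤ 2 ^ 60 * Q ^ 40 := by
                have : Q ^ 7 ≤ Q ^ 40 := pow_le_pow_right₀ hQ1 (by norm_num)
                nlinarith [pow_pos hQ0 7, pow_pos hQ0 40]
            _ ≤ T := hP.big
        calc 3 * T * (a : ℝ) ^ 2 * Q ^ 5 = T * (3 * (a : ℝ) ^ 2 * Q ^ 5) := by ring
          _ ≤ T * T := by gcongr
          _ = T ^ 2 := by ring
          _ ≤ _ := e3
      exact le_of_mul_le_mul_right e1 (by positivity)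
    have hD : ∀ ρ : ℝ, Scl Q ρ → lam * (2 * (H * ρ) / a) ≤ 6 * Q ^ 6 := by
      intro ρ hρ
      have pp := hρ.pos hP.hQ
      have e1 : lam * (2 * (H * ρ) / a) = 6 * (T * (a * ρ) / (H * P)) := by
        rw [hlam]; field_simp; ring
      rw [e1]
      have e2 : T * (a * ρ) / (H * P) ≤ Q ^ 6 := by
        rw [div_le_iff₀ (by positivity)]
        calc T * (a * ρ) ≤ (H * Q) * (Q * Q) := by
              gcongr
              · exact hP.haQ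
              · exact hρ.hi
          _ = H * Q ^ 3 * 1 := by ring
          _ ≤ H * Q ^ 3 * (Q ^ 3 * P) := by gcongr
          _ = Q ^ 6 * (H * P) := by ring
      linarith
    have key := fibre hw (N := N) hP.ha (c1 := c1) (c2 := c2) (B1 := H * ρ1) (B2 := H * ρ2)
      (lam := lam) (r0 := r0) (r1 := r1) (r2 := r2) (by positivity) (by positivity)
      hlam0 hlam1 V hN hv1 hv2 hr0 hr1 hr2 (by
        intro y hy hdvd
        by_contra hcon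
        push Not at hcon
        obtain ⟨hc1, hc2⟩ := hcon
        apply hex
        obtain ⟨z, hz⟩ := hdvd
        have b1 : |(y.1 : ℝ)| ≤ 6 * Q ^ 6 := hc1.le.trans (hD ρ1 h1)
        have b2 : |(y.2 : ℝ)| ≤ 6 * Q ^ 6 := hc2.le.trans (hD ρ2 h2)
        have hQ68 : Q ^ 6 ≤ Q ^ 8 := pow_le_pow_right₀ hQ1 (by norm_num)
        have hQ6 : 0 < Q ^ 6 := by positivity
        refine ⟨(-z, y.1, y.2), ?_, ?_, ?_, ?_, ?_⟩
        · intro h
          exact hy h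
        · simp only
          push_cast
          rw [abs_neg]
          have e1 : |(w.1 : ℝ)| * |(z : ℝ)| ≤ T * (12 * Q ^ 7) := by
            rw [← abs_mul]
            have e2 : (w.1 : ℝ) * z = w.2.1 * y.1 + w.2.2 * y.2 := by exact_mod_cast hz.symm
            rw [e2]
            calc |(w.2.1 : ℝ) * y.1 + w.2.2 * y.2| ≤ |(w.2.1 : ℝ) * y.1| + |(w.2.2 : ℝ) * y.2| :=
                  abs_add_le _ _
              _ = |(w.2.1 : ℝ)| * |(y.1 : ℝ)| + |(w.2.2 : ℝ)| * |(y.2 : ℝ)| := by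
                  rw [abs_mul, abs_mul]
              _ ≤ (T * Q) * (6 * Q ^ 6) + (T * Q) * (6 * Q ^ 6) := by gcongr
              _ = T * (12 * Q ^ 7) := by ring
          have e3 : T * |(z : ℝ)| ≤ T * (12 * Q ^ 8) := by
            have e4 : T ≤ |(w.1 : ℝ)| * ρ0 := by
              rwa [div_le_iff₀ p0] at hbig
            calc T * |(z : ℝ)| ≤ (|(w.1 : ℝ)| * ρ0) * |(z : ℝ)| := by gcongr
              _ = ρ0 * (|(w.1 : ℝ)| * |(z : ℝ)|) := by ring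
              _ ≤ Q * (T * (12 * Q ^ 7)) := by
                  gcongr
                  exact h0.hi
              _ = T * (12 * Q ^ 8) := by ring
          exact le_of_mul_le_mul_left e3 hT0
        · simp only
          linarith
        · simp only
          linarith
        · simp only
          linear_combination hz)
    have e1 : 3 / lam = (H / a) ^ 2 * P / T := by rw [hlam]; field_simp
    rw [e1] at key
    linarith

theorem pair_count {T H Q : ℝ} {a : ℕ} (hP : Par T H Q a) {ρ0 ρ1 ρ2 c0 c1 c2 d1 d2 : ℝ}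
    (h0 : Scl Q ρ0) (h1 : Scl Q ρ1) (h2 : Scl Q ρ2) {N r0 r1 r2 s0 s1 s2 : ℤ}
    (S : Finset ((ℤ × ℤ × ℤ) × (ℤ × ℤ × ℤ)))
    (hN : ∀ p ∈ S, p.1.1 * p.2.1 + p.1.2.1 * p.2.2.1 + p.1.2.2 * p.2.2.2 = N)
    (hb0 : ∀ p ∈ S, |(p.1.1 : ℝ) - c0| ≤ H / ρ0) (hb1 : ∀ p ∈ S, |(p.1.2.1 : ℝ) - c1| ≤ H / ρ1)
    (hb2 : ∀ p ∈ S, |(p.1.2.2 : ℝ) - c2| ≤ H / ρ2)
    (hv1 : ∀ p ∈ S, |(p.2.2.1 : ℝ) - d1| ≤ H * ρ1) (hv2 : ∀ p ∈ S, |(p.2.2.2 : ℝ) - d2| ≤ H * ρ2)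
    (hbig : ∀ p ∈ S, T / ρ0 ≤ |(p.1.1 : ℝ)|)
    (hM : ∀ p ∈ S, |(p.1.1 : ℝ)| ≤ T * Q ∧ |(p.1.2.1 : ℝ)| ≤ T * Q ∧ |(p.1.2.2 : ℝ)| ≤ T * Q)
    (hr0 : ∀ p ∈ S, (a : ℤ) ∣ p.1.1 - r0) (hr1 : ∀ p ∈ S, (a : ℤ) ∣ p.1.2.1 - r1)
    (hr2 : ∀ p ∈ S, (a : ℤ) ∣ p.1.2.2 - r2)
    (hs0 : ∀ p ∈ S, (a : ℤ) ∣ p.2.1 - s0) (hs1 : ∀ p ∈ S, (a : ℤ) ∣ p.2.2.1 - s1)
    (hs2 : ∀ p ∈ S, (a : ℤ) ∣ p.2.2.2 - s2) {g : ℕ} (hg0 : 0 < g)
    (hg : ∀ d : ℕ, d ∣ a → (d : ℤ) ∣ r0 → (d : ℤ) ∣ r1 → (d : ℤ) ∣ r2 → d ∣ g) :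
    (S.card : ℝ) ≤ 10 ^ 4 * (∑ c ∈ g.divisors, (c : ℝ)) * ((H / a) ^ 5 / T) := by
  classical
  have har : (0 : ℝ) < a := by exact_mod_cast hP.ha
  have hQ0 : 0 < Q := by linarith [hP.hQ]
  have hQ1 : 1 ≤ Q := by linarith [hP.hQ]
  have hT0 : 0 < T := by linarith [hP.T1]
  have hT1 := hP.T1
  have hH0 := hP.H0
  have p0 := h0.pos hP.hQ
  have p1 := h1.pos hP.hQ
  have p2 := h2.pos hP.hQ
  obtain ⟨W, hW⟩ : ∃ W : Finset (ℤ × ℤ × ℤ), W = S.image (fun p => p.1) := ⟨_, rfl⟩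
  have hWS : ∀ w ∈ W, ∃ v, (w, v) ∈ S := by
    intro w hw
    rw [hW, mem_image] at hw
    obtain ⟨p, hp, rfl⟩ := hw
    exact ⟨p.2, hp⟩
  have hmaps : ∀ p ∈ S, p.1 ∈ W := by
    intro p hp
    rw [hW, mem_image]
    exact ⟨p, hp, rfl⟩
  have hcard : (S.card : ℝ) = ∑ w ∈ W, ((S.filter (fun p => p.1 = w)).card : ℝ) := by
    exact_mod_cast Finset.card_eq_sum_card_fiberwise (f := fun p : (ℤ × ℤ × ℤ) × (ℤ × ℤ × ℤ) => p.1)
      hmaps
  obtain ⟨X, hX⟩ : ∃ X : ℝ, X = (H / a) ^ 2 * (ρ0 * ρ1 * ρ2) / T := ⟨_, rfl⟩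
  have hX0 : 0 < X := by rw [hX]; positivity
  have hfib : ∀ w ∈ W, ((S.filter (fun p => p.1 = w)).card : ℝ) ≤
      (if Exc (12 * Q ^ 8) w then 96 * T * Q else 0) + X + 48 * X * gg w := by
    intro w hw
    have hinj : Set.InjOn (fun p : (ℤ × ℤ × ℤ) × (ℤ × ℤ × ℤ) => p.2)
        (S.filter (fun p => p.1 = w) : Finset _) := by
      intro p hp q hq hpq
      have hp2 := (mem_filter.mp (show p ∈ S.filter (fun p => p.1 = w) from hp)).2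
      have hq2 := (mem_filter.mp (show q ∈ S.filter (fun p => p.1 = w) from hq)).2
      exact Prod.ext (hp2.trans hq2.symm) hpq
    rw [← card_image_of_injOn hinj, hX]
    have hmem : ∀ v ∈ (S.filter (fun p => p.1 = w)).image
        (fun p : (ℤ × ℤ × ℤ) × (ℤ × ℤ × ℤ) => p.2), (w, v) ∈ S := by
      intro v hv
      rw [mem_image] at hv
      obtain ⟨p, hp, rfl⟩ := hv
      rw [mem_filter] at hp
      obtain ⟨hp1, rfl⟩ := hp
      exact hp1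
    obtain ⟨v0, hv0⟩ := hWS w hw
    refine fibre_le hP h0 h1 h2 (w := w) (c1 := d1) (c2 := d2) (N := N) (r0 := s0) (r1 := s1)
      (r2 := s2) (hbig _ hv0) (hM _ hv0).2.1 (hM _ hv0).2.2 _ ?_ ?_ ?_ ?_ ?_ ?_ _ ?_ ?_
    · intro v hv; exact hN _ (hmem v hv)
    · intro v hv; exact hv1 _ (hmem v hv)
    · intro v hv; exact hv2 _ (hmem v hv)
    · intro v hv; exact hs0 _ (hmem v hv)
    · intro v hv; exact hs1 _ (hmem v hv)
    · intro v hv; exact hs2 _ (hmem v hv)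
    · split_ifs <;> positivity
    · intro h; rw [if_pos h]
  have hWne : ∀ w ∈ W, w.1 ≠ 0 := by
    intro w hw h
    obtain ⟨v0, hv0⟩ := hWS w hw
    have h1 := hbig _ hv0
    have h2 : 0 < T / ρ0 := by positivity
    simp only at h1
    rw [h] at h1
    simp only [Int.cast_zero, abs_zero] at h1
    linarith
  have b0 : ∀ w ∈ W, |(w.1 : ℝ) - c0| ≤ H / ρ0 := by
    intro w hw; obtain ⟨v0, hv0⟩ := hWS w hw; exact hb0 _ hv0
  have b1 : ∀ w ∈ W, |(w.2.1 : ℝ) - c1| ≤ H / ρ1 := by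
    intro w hw; obtain ⟨v0, hv0⟩ := hWS w hw; exact hb1 _ hv0
  have b2 : ∀ w ∈ W, |(w.2.2 : ℝ) - c2| ≤ H / ρ2 := by
    intro w hw; obtain ⟨v0, hv0⟩ := hWS w hw; exact hb2 _ hv0
  have t0 : ∀ w ∈ W, (a : ℤ) ∣ w.1 - r0 := by
    intro w hw; obtain ⟨v0, hv0⟩ := hWS w hw; exact hr0 _ hv0
  have t1 : ∀ w ∈ W, (a : ℤ) ∣ w.2.1 - r1 := by
    intro w hw; obtain ⟨v0, hv0⟩ := hWS w hw; exact hr1 _ hv0
  have t2 : ∀ w ∈ W, (a : ℤ) ∣ w.2.2 - r2 := by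
    intro w hw; obtain ⟨v0, hv0⟩ := hWS w hw; exact hr2 _ hv0
  have m0 : ∀ w ∈ W, |(w.1 : ℝ)| ≤ T * Q ∧ |(w.2.1 : ℝ)| ≤ T * Q ∧ |(w.2.2 : ℝ)| ≤ T * Q := by
    intro w hw; obtain ⟨v0, hv0⟩ := hWS w hw; exact hM _ hv0
  have q1 := card_W hP h0 h1 h2 W b0 b1 b2 t0 t1 t2
  have q2 := sum_gg hP h0 h1 h2 W b0 b1 b2 t0 t1 t2 (fun w hw => (m0 w hw).1) hWne hg0 hg
  have q3 := card_exc (M := T * Q) (E := 12 * Q ^ 8) (by nlinarith)
    (by have : 1 ≤ Q ^ 8 := one_le_pow₀ hQ1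
        linarith) (W.filter (fun w => Exc (12 * Q ^ 8) w))
    (fun w hw => m0 w (mem_filter.mp hw).1) (fun w hw => (mem_filter.mp hw).2)
  obtain ⟨sg, hsg⟩ : ∃ sg : ℝ, sg = ∑ c ∈ g.divisors, (c : ℝ) := ⟨_, rfl⟩
  have hsg1 : 1 ≤ sg := by
    rw [hsg]
    have h1 : (1 : ℕ) ∈ g.divisors := Nat.one_mem_divisors.mpr hg0.ne'
    have := single_le_sum (f := fun c : ℕ => (c : ℝ)) (fun c _ => by positivity) h1
    simpa using this
  rw [← hsg] at q2 ⊢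
  obtain ⟨Z, hZ⟩ : ∃ Z : ℝ, Z = (H / a) ^ 5 / T := ⟨_, rfl⟩
  have hZ0 : 0 < Z := by rw [hZ]; positivity
  rw [← hZ]
  have hXY : X * ((H / a) ^ 3 / (ρ0 * ρ1 * ρ2)) = Z := by
    rw [hX, hZ]; field_simp
  -- the exceptional part
  have q4 : ∑ w ∈ W, (if Exc (12 * Q ^ 8) w then 96 * T * Q else 0) ≤ Z := by
    rw [← sum_filter, sum_const, nsmul_eq_mul]
    calc ((W.filter (fun w => Exc (12 * Q ^ 8) w)).card : ℝ) * (96 * T * Q)
        ≤ (243 * (12 * Q ^ 8) ^ 3 * (T * Q) ^ 2) * (96 * T * Q) := by gcongr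
      _ = 40310784 * Q ^ 27 * T ^ 3 := by ring
      _ ≤ Z := by
          have e1 : (T / Q ^ 2) ^ 5 / T ≤ Z := by
            rw [hZ]
            have := hP.Ha
            gcongr
          refine le_trans ?_ e1
          have e2 : (T / Q ^ 2) ^ 5 / T = T ^ 3 * (T / Q ^ 10) := by field_simp
          rw [e2]
          have e3 : 40310784 * Q ^ 27 ≤ T / Q ^ 10 := by
            rw [le_div_iff₀ (by positivity)]
            calc 40310784 * Q ^ 27 * Q ^ 10 = 40310784 * Q ^ 37 := by ring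
              _ ≤ 2 ^ 60 * Q ^ 40 := by
                  have : Q ^ 37 ≤ Q ^ 40 := pow_le_pow_right₀ hQ1 (by norm_num)
                  have h37 : 0 < Q ^ 37 := by positivity
                  have h40 : 0 < Q ^ 40 := by positivity
                  nlinarith
              _ ≤ T := hP.big
          calc 40310784 * Q ^ 27 * T ^ 3 = T ^ 3 * (40310784 * Q ^ 27) := by ring
            _ ≤ T ^ 3 * (T / Q ^ 10) := by gcongr
  rw [hcard]
  calc ∑ w ∈ W, ((S.filter (fun p => p.1 = w)).card : ℝ)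
      ≤ ∑ w ∈ W, ((if Exc (12 * Q ^ 8) w then 96 * T * Q else 0) + X + 48 * X * gg w) :=
        sum_le_sum hfib
    _ = ∑ w ∈ W, (if Exc (12 * Q ^ 8) w then 96 * T * Q else 0) + W.card * X +
          48 * X * ∑ w ∈ W, (gg w : ℝ) := by
        rw [sum_add_distrib, sum_add_distrib, sum_const, nsmul_eq_mul, mul_sum]
    _ ≤ Z + (27 * ((H / a) ^ 3 / (ρ0 * ρ1 * ρ2))) * X + 48 * X * ((128 * sg + 64) *
          ((H / a) ^ 3 / (ρ0 * ρ1 * ρ2))) := by gcongr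
    _ = Z + 27 * (X * ((H / a) ^ 3 / (ρ0 * ρ1 * ρ2))) + 48 * (128 * sg + 64) *
          (X * ((H / a) ^ 3 / (ρ0 * ρ1 * ρ2))) := by ring
    _ = Z + 27 * Z + 48 * (128 * sg + 64) * Z := by rw [hXY]
    _ ≤ 10 ^ 4 * sg * Z := by nlinarith

end Pool.Agent.PP5R
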