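import Mathlib

/-!
# PP5, region count: integer points of a plane lattice in a box
-/

set_option autoImplicit false

namespace Pool.Agent.PP5R

/-- a finite set whose values under `f` lie in an interval of length `L` and are separated by `m`
has at most `L / m + 1` elements -/
theorem card_sep {α : Type*} (A : Finset α) (f : α → ℝ) {c L m : ℝ} (hm : 0 < m) (hL : 0 ≤ L)
    (hA : ∀ x ∈ A, c ≤ f x ∧ f x ≤ c + L)
    (hs : ∀ x ∈ A, ∀ y ∈ A, x ≠ y → m ≤ |f x - f y|) : (A.card : ℝ) ≤ L / m + 1 := by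
  have h0 : ∀ x ∈ A, 0 ≤ (f x - c) / m := fun x hx => div_nonneg (by linarith [(hA x hx).1]) hm.le
  have h1 : A.card ≤ (Finset.range (⌊L / m⌋₊ + 1)).card := by
    refine Finset.card_le_card_of_injOn (fun x => ⌊(f x - c) / m⌋₊) ?_ ?_
    · intro x hx
      have hx' : x ∈ A := hx
      simp only [Finset.coe_range, Set.mem_Iio]
      have : (f x - c) / m ≤ L / m := by
        apply div_le_div_of_nonneg_right _ hm.le
        linarith [(hA x hx').2]
      exact Nat.lt_succ_of_le (Nat.floor_le_floor this)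
    · intro x hx y hy hxy
      have hx' : x ∈ A := hx
      have hy' : y ∈ A := hy
      by_contra hne
      have h2 := hs x hx' y hy' hne
      simp only at hxy
      have e1 := Nat.floor_le (h0 x hx')
      have e2 := Nat.lt_floor_add_one ((f x - c) / m)
      have e3 := Nat.floor_le (h0 y hy')
      have e4 := Nat.lt_floor_add_one ((f y - c) / m)
      rw [hxy] at e1 e2
      have e5 : |(f x - c) / m - (f y - c) / m| < 1 := by
        rw [abs_lt]; constructor <;> linarith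
      have e6 : (f x - c) / m - (f y - c) / m = (f x - f y) / m := by ring
      rw [e6, abs_div, abs_of_pos hm, div_lt_one hm] at e5
      linarith
  rw [Finset.card_range] at h1
  have h2 : ((⌊L / m⌋₊ : ℕ) : ℝ) ≤ L / m := Nat.floor_le (div_nonneg hL hm.le)
  calc (A.card : ℝ) ≤ ((⌊L / m⌋₊ + 1 : ℕ) : ℝ) := by exact_mod_cast h1
    _ ≤ L / m + 1 := by push_cast; linarith

/-- the number of `y` in the box with `w0 ∣ w1 y1 + w2 y2`, if no such `y ≠ 0` is shorter than
`lam` (in the norm of the box) -/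
theorem plane {w0 w1 w2 : ℤ} (hw : w0 ≠ 0) {D1 D2 lam : ℝ} (hD1 : 0 < D1) (hD2 : 0 < D2)
    (hl : 0 < lam) (hl1 : lam ≤ 1) (S : Finset (ℤ × ℤ))
    (hS : ∀ y ∈ S, w0 ∣ w1 * y.1 + w2 * y.2 ∧ |(y.1 : ℝ)| ≤ D1 ∧ |(y.2 : ℝ)| ≤ D2)
    (hmin : ∀ y : ℤ × ℤ, y ≠ 0 → w0 ∣ w1 * y.1 + w2 * y.2 →
      lam * D1 ≤ |(y.1 : ℝ)| ∨ lam * D2 ≤ |(y.2 : ℝ)|) :
    (S.card : ℝ) ≤ 3 / lam + 12 * (D1 * D2 * (Int.gcd w0 (Int.gcd w1 w2) : ℝ) / |(w0 : ℝ)|) := by
  classical
  obtain ⟨g, hg⟩ : ∃ g : ℕ, g = Int.gcd w0 (Int.gcd w1 w2) := ⟨_, rfl⟩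
  have hgpos : 0 < g := by rw [hg]; exact Int.gcd_pos_of_ne_zero_left _ hw
  have hg0 : (0 : ℝ) < g := by exact_mod_cast hgpos
  have hwr : (0 : ℝ) < |(w0 : ℝ)| := abs_pos.mpr (by exact_mod_cast hw)
  rw [← hg]
  obtain ⟨Bq, hBq⟩ : ∃ Bq : ℝ, Bq = D1 * D2 * (g : ℝ) / |(w0 : ℝ)| := ⟨_, rfl⟩
  rw [← hBq]
  have hB0 : 0 ≤ Bq := by rw [hBq]; positivity
  -- the full set
  obtain ⟨B, hB⟩ : ∃ B : Finset (ℤ × ℤ), ∀ y, y ∈ B ↔
      (w0 ∣ w1 * y.1 + w2 * y.2 ∧ |(y.1 : ℝ)| ≤ D1 ∧ |(y.2 : ℝ)| ≤ D2) := by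
    refine ⟨((Finset.Icc (-⌊D1⌋) ⌊D1⌋) ×ˢ (Finset.Icc (-⌊D2⌋) ⌊D2⌋)).filter
      (fun y => w0 ∣ w1 * y.1 + w2 * y.2), fun y => ?_⟩
    simp only [Finset.mem_filter, Finset.mem_product, Finset.mem_Icc]
    have key : ∀ (a : ℤ) (D : ℝ), (-⌊D⌋ ≤ a ∧ a ≤ ⌊D⌋) ↔ |(a : ℝ)| ≤ D := by
      intro a D
      rw [abs_le, Int.le_floor, neg_le, Int.le_floor]
      push_cast
      constructor
      · rintro ⟨h1, h2⟩; exact ⟨by linarith, h2⟩
      · rintro ⟨h1, h2⟩; exact ⟨by linarith, h2⟩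
    rw [key, key]
    tauto
  have hSB : S ⊆ B := fun y hy => (hB y).mpr (hS y hy)
  have hcard : (S.card : ℝ) ≤ B.card := by exact_mod_cast Finset.card_le_card hSB
  refine hcard.trans ?_
  have h3 : 1 ≤ 3 / lam := by rw [le_div_iff₀ hl]; linarith
  -- nonzero elements
  obtain ⟨nu, hnu⟩ : ∃ nu : ℤ × ℤ → ℝ, ∀ y, nu y = max (|(y.1 : ℝ)| / D1) (|(y.2 : ℝ)| / D2) :=
    ⟨_, fun y => rfl⟩
  by_cases hne : (B.filter (fun y => y ≠ 0)).Nonempty
  swap
  · have h4 : B.card ≤ 1 := by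
      rw [Finset.card_le_one]
      intro a ha b hb
      have ha' : a = 0 := by
        by_contra h
        exact hne ⟨a, Finset.mem_filter.mpr ⟨ha, h⟩⟩
      have hb' : b = 0 := by
        by_contra h
        exact hne ⟨b, Finset.mem_filter.mpr ⟨hb, h⟩⟩
      rw [ha', hb']
    have h5 : (B.card : ℝ) ≤ 1 := by exact_mod_cast h4
    linarith
  obtain ⟨e, he, hemin⟩ := Finset.exists_min_image _ nu hne
  rw [Finset.mem_filter] at he
  obtain ⟨heB, he0⟩ := he
  obtain ⟨hed, he1, he2⟩ := (hB e).mp heB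
  have hnu1 : nu e ≤ 1 := by
    rw [hnu]
    exact max_le ((div_le_one hD1).mpr he1) ((div_le_one hD2).mpr he2)
  have hall : ∀ y : ℤ × ℤ, y ≠ 0 → w0 ∣ w1 * y.1 + w2 * y.2 → nu e ≤ nu y := by
    intro y hy hd
    by_cases h : nu y ≤ 1
    · apply hemin
      rw [Finset.mem_filter, hB]
      rw [hnu] at h
      exact ⟨⟨hd, (div_le_one hD1).mp (le_trans (le_max_left _ _) h),
        (div_le_one hD2).mp (le_trans (le_max_right _ _) h)⟩, hy⟩
    · push Not at h; linarith
  obtain ⟨lm, hlm⟩ : ∃ lm : ℝ, lm = nu e := ⟨_, rfl⟩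
  have hlam : lam ≤ lm := by
    rw [hlm, hnu]
    rcases hmin e he0 hed with h | h
    · exact le_trans ((le_div_iff₀ hD1).mpr h) (le_max_left _ _)
    · exact le_trans ((le_div_iff₀ hD2).mpr h) (le_max_right _ _)
  have hlm0 : 0 < lm := lt_of_lt_of_le hl hlam
  have hE1 : |(e.1 : ℝ)| ≤ lm * D1 := by
    rw [hlm, hnu, ← div_le_iff₀ hD1]; exact le_max_left _ _
  have hE2 : |(e.2 : ℝ)| ≤ lm * D2 := by
    rw [hlm, hnu, ← div_le_iff₀ hD2]; exact le_max_right _ _
  -- the determinant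
  obtain ⟨dt, hdt⟩ : ∃ dt : ℤ × ℤ → ℤ, ∀ y, dt y = e.1 * y.2 - e.2 * y.1 := ⟨_, fun y => rfl⟩
  have hfib : ∀ k ∈ B.image dt, ((B.filter (fun y => dt y = k)).card : ℝ) ≤ 2 / lm + 1 := by
    intro k _
    have hcase : |(e.1 : ℝ)| = lm * D1 ∨ |(e.2 : ℝ)| = lm * D2 := by
      rcases le_total (|(e.1 : ℝ)| / D1) (|(e.2 : ℝ)| / D2) with h | h
      · right
        rw [hlm, hnu, max_eq_right h]; field_simp
      · left
        rw [hlm, hnu, max_eq_left h]; field_simp
    have hdiff : ∀ y ∈ B.filter (fun y => dt y = k), ∀ z ∈ B.filter (fun y => dt y = k), y ≠ z →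
        (e.1 * (y.2 - z.2) = e.2 * (y.1 - z.1)) ∧
        (lm ≤ |((y.1 - z.1 : ℤ) : ℝ)| / D1 ∨ lm ≤ |((y.2 - z.2 : ℤ) : ℝ)| / D2) := by
      intro y hy z hz hyz
      rw [Finset.mem_filter, hB, hdt] at hy hz
      refine ⟨by linarith [hy.2, hz.2], ?_⟩
      have h5 : (y - z) ≠ 0 := sub_ne_zero.mpr hyz
      have h6 : w0 ∣ w1 * (y - z).1 + w2 * (y - z).2 := by
        have := dvd_sub hy.1.1 hz.1.1
        have e7 : w1 * (y - z).1 + w2 * (y - z).2 =
          (w1 * y.1 + w2 * y.2) - (w1 * z.1 + w2 * z.2) := by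
          simp only [Prod.fst_sub, Prod.snd_sub]; ring
        rw [e7]; exact this
      have h7 := hall _ h5 h6
      rw [← hlm, hnu, le_max_iff] at h7
      simpa using h7
    rcases hcase with hc | hc
    · have hsep := card_sep (B.filter (fun y => dt y = k)) (fun y => (y.1 : ℝ)) (c := -D1)
        (L := 2 * D1) (m := lm * D1) (by positivity) (by positivity) (by
          intro y hy
          rw [Finset.mem_filter, hB] at hy
          have := abs_le.mp hy.1.2.1
          constructor <;> linarith [this.1, this.2]) (by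
          intro y hy z hz hyz
          obtain ⟨h1, h2⟩ := hdiff y hy z hz hyz
          push_cast at h2
          have h1' : (e.1 : ℝ) * ((y.2 : ℝ) - z.2) = e.2 * ((y.1 : ℝ) - z.1) := by
            exact_mod_cast h1
          rcases h2 with h2 | h2
          · rwa [le_div_iff₀ hD1] at h2
          · rw [le_div_iff₀ hD2] at h2
            have h8 : |(e.1 : ℝ)| * |(y.2 : ℝ) - z.2| = |(e.2 : ℝ)| * |(y.1 : ℝ) - z.1| := by
              rw [← abs_mul, ← abs_mul, h1']
            rw [hc] at h8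
            have h9 : lm * D1 * (lm * D2) ≤ lm * D2 * |(y.1 : ℝ) - z.1| := by
              calc lm * D1 * (lm * D2) ≤ lm * D1 * |(y.2 : ℝ) - z.2| :=
                    mul_le_mul_of_nonneg_left h2 (by positivity)
                _ = |(e.2 : ℝ)| * |(y.1 : ℝ) - z.1| := h8
                _ ≤ lm * D2 * |(y.1 : ℝ) - z.1| :=
                    mul_le_mul_of_nonneg_right hE2 (abs_nonneg _)
            have h10 : 0 < lm * D2 := by positivity
            nlinarith)
      have e1 : 2 * D1 / (lm * D1) = 2 / lm := by field_simp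
      rw [e1] at hsep
      exact hsep
    · have hsep := card_sep (B.filter (fun y => dt y = k)) (fun y => (y.2 : ℝ)) (c := -D2)
        (L := 2 * D2) (m := lm * D2) (by positivity) (by positivity) (by
          intro y hy
          rw [Finset.mem_filter, hB] at hy
          have := abs_le.mp hy.1.2.2
          constructor <;> linarith [this.1, this.2]) (by
          intro y hy z hz hyz
          obtain ⟨h1, h2⟩ := hdiff y hy z hz hyz
          push_cast at h2
          have h1' : (e.1 : ℝ) * ((y.2 : ℝ) - z.2) = e.2 * ((y.1 : ℝ) - z.1) := by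
            exact_mod_cast h1
          rcases h2 with h2 | h2
          · rw [le_div_iff₀ hD1] at h2
            have h8 : |(e.1 : ℝ)| * |(y.2 : ℝ) - z.2| = |(e.2 : ℝ)| * |(y.1 : ℝ) - z.1| := by
              rw [← abs_mul, ← abs_mul, h1']
            rw [hc] at h8
            have h9 : lm * D2 * (lm * D1) ≤ lm * D1 * |(y.2 : ℝ) - z.2| := by
              calc lm * D2 * (lm * D1) ≤ lm * D2 * |(y.1 : ℝ) - z.1| :=
                    mul_le_mul_of_nonneg_left h2 (by positivity)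
                _ = |(e.1 : ℝ)| * |(y.2 : ℝ) - z.2| := h8.symm
                _ ≤ lm * D1 * |(y.2 : ℝ) - z.2| :=
                    mul_le_mul_of_nonneg_right hE1 (abs_nonneg _)
            have h10 : 0 < lm * D1 := by positivity
            nlinarith
          · rwa [le_div_iff₀ hD2] at h2)
      have e1 : 2 * D2 / (lm * D2) = 2 / lm := by field_simp
      rw [e1] at hsep
      exact hsep
  -- the number of values
  have hval : ((B.image dt).card : ℝ) ≤ 4 * lm * Bq + 1 := by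
    have hk : ∀ y ∈ B, w0 ∣ (g : ℤ) * dt y := by
      intro y hy
      obtain ⟨hyd, _, _⟩ := (hB y).mp hy
      have a0 : w0 ∣ w0 * dt y := dvd_mul_right _ _
      have a1 : w0 ∣ w1 * dt y := by
        have : w1 * dt y = (w1 * e.1 + w2 * e.2) * y.2 - (w1 * y.1 + w2 * y.2) * e.2 := by
          rw [hdt]; ring
        rw [this]
        exact dvd_sub (Dvd.dvd.mul_right hed _) (Dvd.dvd.mul_right hyd _)
      have a2 : w0 ∣ w2 * dt y := by
        have : w2 * dt y = (w1 * y.1 + w2 * y.2) * e.1 - (w1 * e.1 + w2 * e.2) * y.1 := by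
          rw [hdt]; ring
        rw [this]
        exact dvd_sub (Dvd.dvd.mul_right hyd _) (Dvd.dvd.mul_right hed _)
      have b1 : ((Int.gcd w1 w2 : ℕ) : ℤ) = w1 * Int.gcdA w1 w2 + w2 * Int.gcdB w1 w2 :=
        Int.gcd_eq_gcd_ab w1 w2
      have b2 : w0 ∣ ((Int.gcd w1 w2 : ℕ) : ℤ) * dt y := by
        rw [b1, add_mul]
        refine dvd_add ?_ ?_
        · have : w1 * Int.gcdA w1 w2 * dt y = (w1 * dt y) * Int.gcdA w1 w2 := by ring
          rw [this]; exact Dvd.dvd.mul_right a1 _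
        · have : w2 * Int.gcdB w1 w2 * dt y = (w2 * dt y) * Int.gcdB w1 w2 := by ring
          rw [this]; exact Dvd.dvd.mul_right a2 _
      have b3 : ((Int.gcd w0 (Int.gcd w1 w2) : ℕ) : ℤ) =
          w0 * Int.gcdA w0 (Int.gcd w1 w2) + (Int.gcd w1 w2 : ℤ) * Int.gcdB w0 (Int.gcd w1 w2) :=
        Int.gcd_eq_gcd_ab w0 (Int.gcd w1 w2)
      rw [hg, b3, add_mul]
      refine dvd_add ?_ ?_
      · have : w0 * Int.gcdA w0 (Int.gcd w1 w2) * dt y = w0 * (Int.gcdA w0 (Int.gcd w1 w2) * dt y) := by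
          ring
        rw [this]; exact dvd_mul_right _ _
      · have : (Int.gcd w1 w2 : ℤ) * Int.gcdB w0 (Int.gcd w1 w2) * dt y =
          ((Int.gcd w1 w2 : ℤ) * dt y) * Int.gcdB w0 (Int.gcd w1 w2) := by ring
        rw [this]; exact Dvd.dvd.mul_right b2 _
    have hsep := card_sep (B.image dt) (fun k => (k : ℝ)) (c := -(2 * lm * (D1 * D2)))
      (L := 4 * lm * (D1 * D2)) (m := |(w0 : ℝ)| / g) (by positivity) (by positivity) (by
        intro k hk'
        rw [Finset.mem_image] at hk'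
        obtain ⟨y, hy, rfl⟩ := hk'
        obtain ⟨_, hy1, hy2⟩ := (hB y).mp hy
        have c1 : |(dt y : ℝ)| ≤ 2 * lm * (D1 * D2) := by
          rw [hdt]; push_cast
          calc |(e.1 : ℝ) * y.2 - e.2 * y.1| ≤ |(e.1 : ℝ) * y.2| + |(e.2 : ℝ) * y.1| := abs_sub _ _
            _ = |(e.1 : ℝ)| * |(y.2 : ℝ)| + |(e.2 : ℝ)| * |(y.1 : ℝ)| := by
                rw [abs_mul, abs_mul]
            _ ≤ (lm * D1) * D2 + (lm * D2) * D1 := by
                gcongr
            _ = 2 * lm * (D1 * D2) := by ring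
        have c2 := abs_le.mp c1
        constructor <;> linarith [c2.1, c2.2]) (by
        intro k hk' l hl' hkl
        rw [Finset.mem_image] at hk' hl'
        obtain ⟨y, hy, rfl⟩ := hk'
        obtain ⟨z, hz, rfl⟩ := hl'
        have d1 : w0 ∣ (g : ℤ) * (dt y - dt z) := by
          rw [mul_sub]; exact dvd_sub (hk y hy) (hk z hz)
        have d2 : (g : ℤ) * (dt y - dt z) ≠ 0 :=
          mul_ne_zero (by exact_mod_cast hgpos.ne') (sub_ne_zero.mpr hkl)
        have d3 : |w0| ≤ |(g : ℤ) * (dt y - dt z)| :=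
          Int.le_of_dvd (abs_pos.mpr d2) ((abs_dvd_abs _ _).mpr d1)
        have d4 : |(w0 : ℝ)| ≤ (g : ℝ) * |(dt y : ℝ) - dt z| := by
          have : ((|w0| : ℤ) : ℝ) ≤ ((|(g : ℤ) * (dt y - dt z)| : ℤ) : ℝ) := by exact_mod_cast d3
          rw [abs_mul] at this
          push_cast at this
          rwa [abs_of_pos hg0] at this
        rw [div_le_iff₀ hg0]
        linarith)
    have e1 : 4 * lm * (D1 * D2) / (|(w0 : ℝ)| / g) = 4 * lm * Bq := by
      rw [hBq]; field_simp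
    rw [e1] at hsep
    exact hsep
  have htot : (B.card : ℝ) ≤ ∑ k ∈ B.image dt, ((B.filter (fun y => dt y = k)).card : ℝ) := by
    have := Finset.card_eq_sum_card_image dt B
    rw [this]; push_cast; exact le_rfl
  calc (B.card : ℝ) ≤ ∑ k ∈ B.image dt, ((B.filter (fun y => dt y = k)).card : ℝ) := htot
    _ ≤ ∑ _k ∈ B.image dt, (2 / lm + 1) := Finset.sum_le_sum hfib
    _ = ((B.image dt).card : ℝ) * (2 / lm + 1) := by rw [Finset.sum_const, nsmul_eq_mul]
    _ ≤ (4 * lm * Bq + 1) * (2 / lm + 1) := by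
        apply mul_le_mul_of_nonneg_right hval; positivity
    _ = 8 * Bq + 4 * lm * Bq + (2 / lm + 1) := by field_simp; ring
    _ ≤ 3 / lam + 12 * Bq := by
        have f1 : 2 / lm ≤ 2 / lam := div_le_div_of_nonneg_left (by norm_num) hl hlam
        have f2 : (1 : ℝ) ≤ 1 / lam := by rw [le_div_iff₀ hl]; linarith
        have f3 : lm * Bq ≤ Bq := by
          have : lm ≤ 1 := by rw [hlm]; exact hnu1
          nlinarith
        have f4 : 3 / lam = 2 / lam + 1 / lam := by ring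
        rw [f4]; linarith

end Pool.Agent.PP5R
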